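import Pool.Agent.Lib.MP_af3a4a_an.P1.H80.OffRay

/-!
# The loss on a segment of `R`, and the certificate in polar coordinates (council 2, helper80)
-/

namespace Pool.Agent.Lib.MP_af3a4a_an.P1.CHK.H80

open Finset MeasureTheory intervalIntegral ComplexConjugate
open Pool.Agent.Lib.MP_af3a4a_an.SV (uu av sq EE)
open Pool.Agent.Lib.MP_af3a4a_an.P1.H80

/-- The end point data for the loss `l` at `s = p + i q` (coordinates with respect to `e`).
`L` is an upper bound of `log |s|`. -/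
structure CertE (a k l L p q : ℝ) : Prop where
  a0 : 0 ≤ a
  a1 : a < 1
  hk : 5 / 8 ≤ k
  hl : k * (1 + a) ^ 2 * q ^ 2 ≤ l
  hA : 0 ≤ ww a + a * p - k * (1 + a) ^ 2 * p ^ 2 + l
  hd : ((2 * (k * (1 + a) ^ 2) * p - a) * q) ^ 2 ≤
    4 * (ww a + a * p - k * (1 + a) ^ 2 * p ^ 2 + l) * (l - k * (1 + a) ^ 2 * q ^ 2)
  hB : 1 + Real.log (1 - a ^ 2) / 2 - l ≤ a * p - Real.sqrt ((p - kap a) ^ 2 + q ^ 2) - L
  hL : p ^ 2 + q ^ 2 ≤ Real.exp (2 * L)

/-- the quadratic form is nonnegative -/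
theorem CertE.form {a k l L p q : ℝ} (h : CertE a k l L p q) (T U : ℝ) :
    0 ≤ ww a * U ^ 2 + a * (p * U - q * T) * U - k * (1 + a) ^ 2 * (p * U - q * T) ^ 2
      + l * (T ^ 2 + U ^ 2) := by
  have h1 := quad_nonneg (U := U) (T := T) h.hA (sub_nonneg.2 h.hl) h.hd
  refine h1.trans (le_of_eq ?_)
  ring

/-- a nonnegative binary quadratic form -/
theorem form_disc {α β γ : ℝ} (h : ∀ T U : ℝ, 0 ≤ α * U ^ 2 + β * (U * T) + γ * T ^ 2) :
    0 ≤ α ∧ 0 ≤ γ ∧ β ^ 2 ≤ 4 * α * γ := by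
  have h1 := h 0 1
  have h2 := h 1 0
  have hα : 0 ≤ α := by linarith only [h1]
  have hγ : 0 ≤ γ := by linarith only [h2]
  refine ⟨hα, hγ, ?_⟩
  rcases hα.lt_or_eq with h3 | h3
  · have h4 := h (2 * α) (-β)
    have h5 : α * (-β) ^ 2 + β * (-β * (2 * α)) + γ * (2 * α) ^ 2 = α * (4 * α * γ - β ^ 2) := by ring
    rw [h5] at h4
    have := nonneg_of_mul_nonneg_right h4 h3
    linarith only [this]
  · rw [← h3] at h ⊢
    have h4 := h 1 (-(γ + 1) * β)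
    have h5 : (0 : ℝ) * (-(γ + 1) * β) ^ 2 + β * (-(γ + 1) * β * 1) + γ * 1 ^ 2 =
        γ - (γ + 1) * β ^ 2 := by ring
    by_contra hcon
    push Not at hcon
    have hβ : 0 < β ^ 2 := by linarith only [hcon]
    have h6 := h 1 (-(γ + 1) / β ^ 2 * β)
    have hβ0 : β ≠ 0 := by
      rintro rfl
      simp at hβ
    have h7 : (0 : ℝ) * (-(γ + 1) / β ^ 2 * β) ^ 2 + β * (-(γ + 1) / β ^ 2 * β * 1) + γ * 1 ^ 2 =
        -1 := by
      field_simp
      ring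
    rw [h7] at h6
    linarith only [h6]

/-- the end point data are stable under convex combinations -/
theorem CertE.conv {a k l L p₀ q₀ p₁ q₁ s t : ℝ} (h₀ : CertE a k l L p₀ q₀)
    (h₁ : CertE a k l L p₁ q₁) (hs : 0 ≤ s) (ht : 0 ≤ t) (hst : s + t = 1) :
    CertE a k l L (s * p₀ + t * p₁) (s * q₀ + t * q₁) := by
  have ha0 := h₀.a0
  have hK : 0 ≤ k * (1 + a) ^ 2 := mul_nonneg (by linarith only [h₀, h₀.hk]) (sq_nonneg _)
  have hs' : s = 1 - t := by linarith only [hst]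
  subst hs'
  obtain ⟨p, hp⟩ : ∃ p, p = (1 - t) * p₀ + t * p₁ := ⟨_, rfl⟩
  obtain ⟨q, hq⟩ : ∃ q, q = (1 - t) * q₀ + t * q₁ := ⟨_, rfl⟩
  rw [← hp, ← hq]
  have hform : ∀ T U : ℝ, 0 ≤ (ww a + a * p - k * (1 + a) ^ 2 * p ^ 2 + l) * U ^ 2 +
      ((2 * (k * (1 + a) ^ 2) * p - a) * q) * (U * T) + (l - k * (1 + a) ^ 2 * q ^ 2) * T ^ 2 := by
    intro T U
    have f0 := mul_nonneg hs (h₀.form T U)
    have f1 := mul_nonneg ht (h₁.form T U)
    have f2 : 0 ≤ k * (1 + a) ^ 2 * ((1 - t) * t * ((p₀ * U - q₀ * T) - (p₁ * U - q₁ * T)) ^ 2) :=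
      mul_nonneg hK (mul_nonneg (mul_nonneg hs ht) (sq_nonneg _))
    refine (add_nonneg (add_nonneg f0 f1) f2).trans (le_of_eq ?_)
    rw [hp, hq]
    ring
  obtain ⟨hA, hG, hD⟩ := form_disc hform
  refine ⟨h₀.a0, h₀.a1, h₀.hk, by linarith only [hG], hA, hD, ?_, ?_⟩
  · -- the far bound
    have hn : Real.sqrt ((p - kap a) ^ 2 + q ^ 2) ≤
        (1 - t) * Real.sqrt ((p₀ - kap a) ^ 2 + q₀ ^ 2) +
          t * Real.sqrt ((p₁ - kap a) ^ 2 + q₁ ^ 2) := by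
      have e : ∀ x y : ℝ, Real.sqrt (x ^ 2 + y ^ 2) = ‖(⟨x, y⟩ : ℂ)‖ := by
        intro x y
        rw [Complex.norm_def, Complex.normSq_mk]
        congr 1
        ring
      rw [e, e, e]
      have e2 : (⟨p - kap a, q⟩ : ℂ) = ((1 - t : ℝ) : ℂ) * ⟨p₀ - kap a, q₀⟩ +
          ((t : ℝ) : ℂ) * ⟨p₁ - kap a, q₁⟩ := by
        apply Complex.ext
        · simp only [Complex.add_re, Complex.re_ofReal_mul]
          rw [hp]; ring
        · simp only [Complex.add_im, Complex.im_ofReal_mul]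
          rw [hq]
      rw [e2]
      refine (norm_add_le _ _).trans (le_of_eq ?_)
      rw [norm_mul, norm_mul, Complex.norm_real, Complex.norm_real, Real.norm_of_nonneg hs,
        Real.norm_of_nonneg ht]
    have b0 := mul_le_mul_of_nonneg_left h₀.hB hs
    have b1 := mul_le_mul_of_nonneg_left h₁.hB ht
    rw [hp] at hn ⊢
    linarith only [hn, b0, b1]
  · have c0 := mul_le_mul_of_nonneg_left h₀.hL hs
    have c1 := mul_le_mul_of_nonneg_left h₁.hL ht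
    have c2 : 0 ≤ (1 - t) * t * ((p₀ - p₁) ^ 2 + (q₀ - q₁) ^ 2) :=
      mul_nonneg (mul_nonneg hs ht) (by positivity)
    rw [hp, hq]
    linarith only [c0, c1, c2]

/-- the end point data give the certificate -/
theorem CertE.certAt {a k l L : ℝ} {e s : ℂ} (he : ‖e‖ = 1)
    (h : CertE a k l L (conj e * s).re (conj e * s).im) : CertAt a l e s := by
  refine ⟨h.a0, h.a1, ?_⟩
  rcases eq_or_ne s 0 with hs | hs
  · left
    refine ⟨hs, ?_⟩
    have h1 := h.hl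
    have hK : 0 ≤ k * (1 + a) ^ 2 := mul_nonneg (by linarith only [h, h.hk]) (sq_nonneg _)
    exact (mul_nonneg hK (sq_nonneg _)).trans h1
  · right
    refine ⟨hs, k, h.a0, h.a1, ?_, h.hl, h.hA, h.hd, ?_⟩
    · have h1 : min (1 / 4 : ℝ) ((1 + a) ^ 2 * ((conj e * s).re ^ 2 + (conj e * s).im ^ 2)) ≤ 1 / 4 :=
        min_le_left _ _
      linarith only [h, h1, h.hk]
    · refine h.hB.trans ?_
      have hpos : 0 < (conj e * s).re ^ 2 + (conj e * s).im ^ 2 := by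
        rw [← norm_sq_re_im, norm_mul, Complex.norm_conj, he, one_mul]
        have := norm_pos_iff.2 hs
        positivity
      have h2 := Real.log_le_log hpos h.hL
      rw [Real.log_exp] at h2
      linarith only [h2]

/-- **the loss on a segment**: end point data at `s₀` and `s₁` give the certificate at all points
of the segment. -/
theorem cert_segment {a k l L : ℝ} {e s₀ s₁ : ℂ} (he : ‖e‖ = 1)
    (h₀ : CertE a k l L (conj e * s₀).re (conj e * s₀).im)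
    (h₁ : CertE a k l L (conj e * s₁).re (conj e * s₁).im) {s t : ℝ} (hs : 0 ≤ s) (ht : 0 ≤ t)
    (hst : s + t = 1) : CertAt a l e ((s : ℂ) * s₀ + (t : ℂ) * s₁) := by
  apply CertE.certAt (k := k) (L := L) he
  have h := h₀.conv h₁ hs ht hst
  have e1 : conj e * ((s : ℂ) * s₀ + (t : ℂ) * s₁) =
      (s : ℂ) * (conj e * s₀) + (t : ℂ) * (conj e * s₁) := by ring
  rw [e1, Complex.add_re, Complex.add_im, Complex.re_ofReal_mul, Complex.re_ofReal_mul,
    Complex.im_ofReal_mul, Complex.im_ofReal_mul]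
  exact h

/-- the loss for all `R` in `[R₀, R₁]` -/
theorem cert_R {a k l L : ℝ} {e y : ℂ} {R₀ R₁ R : ℝ} (he : ‖e‖ = 1)
    (h₀ : CertE a k l L (conj e * ((R₀ : ℂ) - y)).re (conj e * ((R₀ : ℂ) - y)).im)
    (h₁ : CertE a k l L (conj e * ((R₁ : ℂ) - y)).re (conj e * ((R₁ : ℂ) - y)).im)
    (hR₀ : R₀ ≤ R) (hR₁ : R ≤ R₁) : CertAt a l e ((R : ℂ) - y) := by
  rcases hR₀.eq_or_lt with h | h
  · rw [← h]
    exact h₀.certAt he
  · have hlt : 0 < R₁ - R₀ := by linarith only [hR₁, h]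
    have h3 := cert_segment he h₀ h₁ (s := (R₁ - R) / (R₁ - R₀)) (t := (R - R₀) / (R₁ - R₀))
      (div_nonneg (by linarith only [hR₁]) hlt.le) (div_nonneg (by linarith only [h]) hlt.le)
      (by field_simp; ring)
    have e1 : (((R₁ - R) / (R₁ - R₀) : ℝ) : ℂ) * ((R₀ : ℂ) - y) +
        (((R - R₀) / (R₁ - R₀) : ℝ) : ℂ) * ((R₁ : ℂ) - y) = (R : ℂ) - y := by
      have hne : (R₁ : ℂ) - R₀ ≠ 0 := by
        rw [← Complex.ofReal_sub]
        exact_mod_cast hlt.ne'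
      push_cast
      field_simp
      ring
    rw [e1] at h3
    exact h3

/-- the norm conditions on a segment -/
theorem norm_segment {y : ℂ} {R₀ R₁ R D : ℝ} (h₀ : ‖(R₀ : ℂ) - y‖ ≤ D) (h₁ : ‖(R₁ : ℂ) - y‖ ≤ D)
    (hR₀ : R₀ ≤ R) (hR₁ : R ≤ R₁) : ‖(R : ℂ) - y‖ ≤ D := by
  have h2 : ∀ x : ℝ, ‖(x : ℂ) - y‖ ^ 2 = (x - y.re) ^ 2 + y.im ^ 2 := by
    intro x
    rw [norm_sq_re_im]
    simp
  have hD : 0 ≤ D := (norm_nonneg _).trans h₀
  have a0 : ‖(R₀ : ℂ) - y‖ ^ 2 ≤ D ^ 2 := pow_le_pow_left₀ (norm_nonneg _) h₀ 2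
  have a1 : ‖(R₁ : ℂ) - y‖ ^ 2 ≤ D ^ 2 := pow_le_pow_left₀ (norm_nonneg _) h₁ 2
  apply le_of_sq_le_sq _ hD
  rw [h2] at a0 a1 ⊢
  rcases le_total R y.re with h | h
  · nlinarith only [hR₀, a0, h]
  · nlinarith only [hR₁, a1, h]

/-- **the certificate in polar coordinates**: `m = r e^{iγ}`, `y = t e^{-iθ}`, `e = e^{iο}`. -/
theorem polar {N : ℕ} {z w : Fin N → ℂ} {R : ℝ} {σ : Fin N → ℂ} (hC : Cfg2 N z w R σ)
    {a l t G r γ θ ο : ℝ} (hm : av (uu w) = (r : ℂ) * Complex.exp ((γ : ℂ) * Complex.I))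
    (ht : 0 < t)
    (hc : CertAt a l (Complex.exp ((ο : ℂ) * Complex.I))
      ((R : ℂ) - (t : ℂ) * Complex.exp (((-θ : ℝ) : ℂ) * Complex.I)))
    (ha : a * ((N + 1) / N) ≤ 3 / 10)
    (h2 : (1 + a) * ‖(R : ℂ) - (t : ℂ) * Complex.exp (((-θ : ℝ) : ℂ) * Complex.I)‖ ≤ 1)
    (h3 : t + 2 * ‖(R : ℂ) - (t : ℂ) * Complex.exp (((-θ : ℝ) : ℂ) * Complex.I)‖ ≤ 3)
    (h4 : (1 - a) * (t - 2 * ‖(R : ℂ) - (t : ℂ) * Complex.exp (((-θ : ℝ) : ℂ) * Complex.I)‖) ≤ 2)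
    (hG : 0 < G)
    (hf : G ≤ ‖∫ x in (0 : ℝ)..t, qq (ru w (Complex.exp (((-θ : ℝ) : ℂ) * Complex.I))) x‖) :
    N * (1 + Real.log (1 - a ^ 2) / 2 - l)
      + a * (N * t * Real.cos (θ + ο) - ((N : ℝ) + 1) * (r * Real.cos (γ + ο)))
      + t * Real.cos θ + kap a * Real.cos ο + Real.log (((N : ℝ) + 1) * G / t) < N + 1 := by
  have hn : ∀ x : ℝ, ‖Complex.exp ((x : ℂ) * Complex.I)‖ = 1 := Complex.norm_exp_ofReal_mul_I
  have h := hC.cert_off (hn ο) (hn (-θ)) ht hc ha h2 h3 h4 hG hf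
  have hexp : ∀ x : ℝ, (Complex.exp ((x : ℂ) * Complex.I)).re = Real.cos x :=
    Complex.exp_ofReal_mul_I_re
  have hconj : ∀ x : ℝ, conj (Complex.exp ((x : ℂ) * Complex.I)) =
      Complex.exp (((-x : ℝ) : ℂ) * Complex.I) := by
    intro x
    rw [← Complex.exp_conj, map_mul, Complex.conj_ofReal, Complex.conj_I]
    congr 1
    push_cast
    ring
  have e1 : (conj (Complex.exp ((ο : ℂ) * Complex.I)) *
      Complex.exp (((-θ : ℝ) : ℂ) * Complex.I)).re = Real.cos (θ + ο) := by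
    rw [hconj, ← Complex.exp_add, ← add_mul, ← Complex.ofReal_add, hexp,
      show -ο + -θ = -(θ + ο) by ring, Real.cos_neg]
  have e2 : (conj (Complex.exp ((ο : ℂ) * Complex.I)) * conj (av (uu w))).re =
      r * Real.cos (γ + ο) := by
    rw [hm, map_mul, Complex.conj_ofReal, hconj, hconj]
    have : Complex.exp (((-ο : ℝ) : ℂ) * Complex.I) *
        ((r : ℂ) * Complex.exp (((-γ : ℝ) : ℂ) * Complex.I)) =
        (r : ℂ) * Complex.exp (((-(γ + ο) : ℝ) : ℂ) * Complex.I) := by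
      rw [mul_left_comm, ← Complex.exp_add]
      congr 2
      push_cast
      ring
    rw [this, Complex.re_ofReal_mul, hexp, Real.cos_neg]
  rw [e1, e2, hexp, hexp, Real.cos_neg] at h
  exact h

/-- polar coordinates of the mean: `0 ≤ γ ≤ π/2` -/
theorem polar_exists {N : ℕ} {z w : Fin N → ℂ} {R : ℝ} {σ : Fin N → ℂ} (hC : Cfg2 N z w R σ) :
    ∃ r γ : ℝ, 0 < r ∧ r ≤ 1 ∧ 0 ≤ γ ∧ γ ≤ Real.pi / 2 ∧ R * r ≤ 2 * Real.cos γ ∧
      av (uu w) = (r : ℂ) * Complex.exp ((γ : ℂ) * Complex.I) := by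
  have hN : 1 ≤ N := by linarith only [hC, hC.hN]
  have hNpos : (0 : ℝ) < N := by exact_mod_cast hN
  -- `|1 - R m| < 1`
  have h1 : ‖1 - (R : ℂ) * av (uu w)‖ < 1 := by
    have h2 : 1 - (R : ℂ) * av (uu w) = (1 / (N : ℂ)) * ∑ k, (1 - (R : ℂ) * uu w k) := by
      unfold av
      rw [Finset.sum_sub_distrib, ← Finset.mul_sum]
      simp only [Finset.sum_const, Finset.card_univ, Fintype.card_fin, nsmul_eq_mul, mul_one]
      have hN0 : (N : ℂ) ≠ 0 := by exact_mod_cast hNpos.ne'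
      field_simp
    rw [h2, norm_mul]
    have h3 : ‖∑ k, (1 - (R : ℂ) * uu w k)‖ < N := by
      refine lt_of_le_of_lt ((norm_sum_le _ _).trans (Finset.sum_le_sum fun k _ => ?_)) hC.dist
      have hw := hC.cfg.w_ne k
      have h4 : 1 - (R : ℂ) * uu w k = (w k - R) * uu w k := by
        simp only [uu]
        field_simp
      rw [h4, norm_mul]
      exact mul_le_of_le_one_right (norm_nonneg _) (hC.u_le k)
    have h5 : ‖(1 : ℂ) / N‖ = 1 / N := by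
      rw [norm_div, norm_one, Complex.norm_natCast]
    rw [h5]
    calc 1 / (N : ℝ) * ‖∑ k, (1 - (R : ℂ) * uu w k)‖ < 1 / (N : ℝ) * N :=
          mul_lt_mul_of_pos_left h3 (by positivity)
      _ = 1 := by field_simp
  set m := av (uu w) with hm
  have h2 : ‖1 - (R : ℂ) * m‖ ^ 2 < 1 := by
    have := norm_nonneg (1 - (R : ℂ) * m)
    nlinarith only [h1, this]
  have h3 : ‖1 - (R : ℂ) * m‖ ^ 2 = 1 - 2 * R * m.re + R ^ 2 * ‖m‖ ^ 2 := by
    rw [norm_sq_re_im, norm_sq_re_im]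
    simp only [Complex.sub_re, Complex.sub_im, Complex.one_re, Complex.one_im,
      Complex.re_ofReal_mul, Complex.im_ofReal_mul]
    ring
  have hR := hC.hR
  have hm0 : m ≠ 0 := by
    intro h0
    rw [h0] at h1
    simp at h1
  have hmp : 0 < ‖m‖ := norm_pos_iff.2 hm0
  have h4 : R * ‖m‖ ^ 2 < 2 * m.re := by
    rw [h3] at h2
    have : R * (R * ‖m‖ ^ 2) < R * (2 * m.re) := by linarith only [h2]
    exact lt_of_mul_lt_mul_left this hR.le
  have hre : 0 < m.re := by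
    have : 0 < R * ‖m‖ ^ 2 := by positivity
    linarith only [h4, this]
  refine ⟨‖m‖, Complex.arg m, hmp, hC.av_le, ?_, ?_, ?_, ?_⟩
  · exact Complex.arg_nonneg_iff.2 hC.him
  · exact (abs_le.1 (Complex.abs_arg_le_pi_div_two_iff.2 hre.le)).2
  · rw [Complex.cos_arg hm0, ← mul_div_assoc, le_div_iff₀ hmp]
    linarith only [h4]
  · exact (Complex.norm_mul_exp_arg_mul_I m).symm

end Pool.Agent.Lib.MP_af3a4a_an.P1.CHK.H80
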