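import Pool.Agent.Lib.MP_af3a4a_an.P1.CHK.H80.F5

/-!
# F5 beyond the right angle (council 2, helper80)

The exact minimum `Re e^{Z + iψ} ≥ e^{-P cos θ} cos θ` also holds for `π/2 ≤ θ ≤ π`
(negative values).
-/

namespace Pool.Agent.Lib.MP_af3a4a_an.P1.CHK.H80

open Finset MeasureTheory intervalIntegral ComplexConjugate
open Pool.Agent.Lib.MP_af3a4a_an.SV (uu av sq EE)
open Pool.Agent.Lib.MP_af3a4a_an.P1.H80

/-- `cos u · e^{u tan α}` is maximal at `u = α` -/
theorem cos_mul_exp_le {α u : ℝ} (h0 : 0 ≤ α) (h1 : α < Real.pi / 2) (hu0 : 0 ≤ u)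
    (hu1 : u ≤ Real.pi) :
    Real.cos u * Real.exp (Real.tan α * u) ≤ Real.cos α * Real.exp (Real.tan α * α) := by
  have hpi := Real.pi_pos
  have hcos : 0 < Real.cos α := Real.cos_pos_of_mem_Ioo ⟨by linarith, h1⟩
  set T := Real.tan α with hT
  have hd : ∀ x : ℝ, HasDerivAt (fun x => Real.cos x * Real.exp (T * x))
      (Real.exp (T * x) * (Real.sin (α - x) / Real.cos α)) x := by
    intro x
    have e1 : HasDerivAt (fun x => Real.exp (T * x)) (Real.exp (T * x) * (T * 1)) x :=
      ((hasDerivAt_id x).const_mul T).exp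
    refine ((Real.hasDerivAt_cos x).mul e1).congr_deriv ?_
    rw [hT, Real.tan_eq_sin_div_cos, Real.sin_sub]
    field_simp
    ring
  have hcont : Continuous fun x => Real.cos x * Real.exp (T * x) := by fun_prop
  rcases le_total u α with h | h
  · have hmono : MonotoneOn (fun x => Real.cos x * Real.exp (T * x)) (Set.Icc u α) := by
      apply monotoneOn_of_deriv_nonneg (convex_Icc u α) hcont.continuousOn
      · intro x _
        exact (hd x).differentiableAt.differentiableWithinAt
      · intro x hx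
        have hx' := interior_subset hx
        rw [(hd x).deriv]
        have : 0 ≤ Real.sin (α - x) :=
          Real.sin_nonneg_of_nonneg_of_le_pi (by linarith [hx'.2]) (by linarith [hx'.1])
        positivity
    exact hmono ⟨le_rfl, h⟩ ⟨h, le_rfl⟩ h
  · have hanti : AntitoneOn (fun x => Real.cos x * Real.exp (T * x)) (Set.Icc α u) := by
      apply antitoneOn_of_deriv_nonpos (convex_Icc α u) hcont.continuousOn
      · intro x _
        exact (hd x).differentiableAt.differentiableWithinAt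
      · intro x hx
        have hx' := interior_subset hx
        rw [(hd x).deriv]
        have h2 : 0 ≤ Real.sin (x - α) :=
          Real.sin_nonneg_of_nonneg_of_le_pi (by linarith [hx'.1]) (by linarith [hx'.2])
        have h3 : Real.sin (α - x) ≤ 0 := by
          rw [← neg_sub, Real.sin_neg]
          linarith
        exact mul_nonpos_of_nonneg_of_nonpos (Real.exp_pos _).le
          (div_nonpos_of_nonpos_of_nonneg h3 hcos.le)
    exact hanti ⟨le_rfl, h⟩ ⟨h, le_rfl⟩ h

/-- the exact minimum of `Re exp` over a disc, negative values -/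
theorem exp_min_neg {P α ψ : ℝ} {Z : ℂ} (h0 : 0 ≤ α) (h1 : α ≤ Real.pi / 2) (hP : 0 ≤ P)
    (hψ : |ψ| + P * Real.sin α + α ≤ Real.pi) (hZ : ‖Z‖ ≤ P) :
    -(Real.exp (P * Real.cos α) * Real.cos α) ≤
      (Complex.exp (Z + (ψ : ℂ) * Complex.I)).re := by
  have hpi := Real.pi_pos
  have hre : (Complex.exp (Z + (ψ : ℂ) * Complex.I)).re =
      Real.exp Z.re * Real.cos (Z.im + ψ) := by
    rw [Complex.exp_re]
    simp
  rw [hre]
  have hn : Z.re ^ 2 + Z.im ^ 2 ≤ P ^ 2 := by
    rw [← norm_sq_re_im]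
    exact pow_le_pow_left₀ (norm_nonneg _) hZ 2
  have him : |Z.im| ≤ P := (Complex.abs_im_le_norm Z).trans hZ
  rcases h1.eq_or_lt with h | h
  · -- `α = π/2`
    rw [h, Real.cos_pi_div_two, mul_zero, neg_zero]
    rw [h, Real.sin_pi_div_two, mul_one] at hψ
    have h2 : |Z.im + ψ| ≤ Real.pi / 2 := (abs_add_le _ _).trans (by linarith)
    have h3 := abs_le.1 h2
    exact mul_nonneg (Real.exp_pos _).le (Real.cos_nonneg_of_mem_Icc ⟨h3.1, h3.2⟩)
  · have hcos : 0 < Real.cos α := Real.cos_pos_of_mem_Ioo ⟨by linarith, h⟩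
    have hsin : 0 ≤ Real.sin α := Real.sin_nonneg_of_nonneg_of_le_pi h0 (by linarith)
    set T := Real.tan α with hT
    have hT0 : 0 ≤ T := by
      rw [hT, Real.tan_eq_sin_div_cos]
      positivity
    have hTc : T * Real.cos α = Real.sin α := by
      rw [hT]
      exact Real.tan_mul_cos hcos.ne'
    -- the angle `u`
    obtain ⟨u, hu0, hu1, huc, hus⟩ : ∃ u : ℝ, 0 ≤ u ∧ u ≤ Real.pi ∧
        Real.cos u = -Real.cos (Z.im + ψ) ∧ Real.pi - |ψ| - |Z.im| ≤ u := by
      refine ⟨Real.arccos (-Real.cos (Z.im + ψ)), Real.arccos_nonneg _, Real.arccos_le_pi _, ?_, ?_⟩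
      · rw [Real.cos_arccos]
        · linarith [Real.cos_le_one (Z.im + ψ)]
        · linarith [Real.neg_one_le_cos (Z.im + ψ)]
      · rw [Real.arccos_neg]
        have h2 : Real.arccos (Real.cos (Z.im + ψ)) ≤ |ψ| + |Z.im| := by
          rcases le_total Real.pi (|ψ| + |Z.im|) with h3 | h3
          · exact (Real.arccos_le_pi _).trans h3
          · have h4 : |Z.im + ψ| ≤ |ψ| + |Z.im| := (abs_add_le _ _).trans (by linarith)
            have h5 : Real.cos (|ψ| + |Z.im|) ≤ Real.cos (Z.im + ψ) := by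
              rw [← Real.cos_abs (Z.im + ψ)]
              exact Real.cos_le_cos_of_nonneg_of_le_pi (abs_nonneg _) h3 h4
            calc Real.arccos (Real.cos (Z.im + ψ)) ≤ Real.arccos (Real.cos (|ψ| + |Z.im|)) :=
                  Real.arccos_le_arccos h5
              _ = |ψ| + |Z.im| := Real.arccos_cos (by positivity) h3
        linarith
    -- the tangent to the circle
    have hX : Z.re ≤ P * Real.cos α - T * (|Z.im| - P * Real.sin α) := by
      have h2 : Z.re * Real.cos α + |Z.im| * Real.sin α ≤ P := by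
        have h3 : (Z.re * Real.cos α + |Z.im| * Real.sin α) ^ 2 ≤ P ^ 2 := by
          have h4 := Real.sin_sq_add_cos_sq α
          have h5 : |Z.im| ^ 2 = Z.im ^ 2 := sq_abs _
          have h6 : (Z.re * Real.cos α + |Z.im| * Real.sin α) ^ 2 +
              (Z.re * Real.sin α - |Z.im| * Real.cos α) ^ 2 =
              (Z.re ^ 2 + |Z.im| ^ 2) * (Real.sin α ^ 2 + Real.cos α ^ 2) := by ring
          rw [h4, mul_one, h5] at h6
          nlinarith [sq_nonneg (Z.re * Real.sin α - |Z.im| * Real.cos α)]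
        exact (abs_le.1 (abs_le_of_sq_le_sq h3 hP)).2
      have h7 : Z.re * Real.cos α ≤
          (P * Real.cos α - T * (|Z.im| - P * Real.sin α)) * Real.cos α := by
        have h4 := Real.sin_sq_add_cos_sq α
        have h8 : (P * Real.cos α - T * (|Z.im| - P * Real.sin α)) * Real.cos α =
            P * (Real.sin α ^ 2 + Real.cos α ^ 2) - |Z.im| * Real.sin α := by
          have : (P * Real.cos α - T * (|Z.im| - P * Real.sin α)) * Real.cos α =
              P * Real.cos α ^ 2 - (T * Real.cos α) * (|Z.im| - P * Real.sin α) := by ring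
          rw [this, hTc]
          ring
        rw [h8, h4]
        linarith
      exact le_of_mul_le_mul_right h7 hcos
    have hE : Z.re - T * u + T * α ≤ P * Real.cos α := by
      have h2 : T * (α + P * Real.sin α) ≤ T * (u + |Z.im|) :=
        mul_le_mul_of_nonneg_left (by linarith) hT0
      nlinarith
    have hmain := cos_mul_exp_le h0 h hu0 hu1
    rw [← hT] at hmain
    have h9 : Real.exp Z.re * Real.cos u ≤ Real.exp (P * Real.cos α) * Real.cos α := by
      calc Real.exp Z.re * Real.cos u =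
          Real.exp (Z.re - T * u) * (Real.cos u * Real.exp (T * u)) := by
            rw [Real.exp_sub]
            field_simp
        _ ≤ Real.exp (Z.re - T * u) * (Real.cos α * Real.exp (T * α)) :=
            mul_le_mul_of_nonneg_left hmain (Real.exp_pos _).le
        _ = Real.exp (Z.re - T * u + T * α) * Real.cos α := by
            rw [Real.exp_add]
            ring
        _ ≤ Real.exp (P * Real.cos α) * Real.cos α :=
            mul_le_mul_of_nonneg_right (Real.exp_le_exp.2 hE) hcos.le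
    rw [huc] at h9
    linarith

/-- **the exact minimum for all `0 ≤ θ ≤ π`** -/
theorem exp_min_pi {P θ ψ : ℝ} {Z : ℂ} (h0 : 0 ≤ θ) (h1 : θ ≤ Real.pi) (hP : 0 ≤ P)
    (hc : P * Real.cos θ ≤ 1) (hψ : |ψ| ≤ θ - P * Real.sin θ) (hZ : ‖Z‖ ≤ P) :
    Real.exp (-(P * Real.cos θ)) * Real.cos θ ≤ (Complex.exp (Z + (ψ : ℂ) * Complex.I)).re := by
  rcases lt_or_ge θ (Real.pi / 2) with h | h
  · exact exp_min h0 h hP hc hψ hZ
  · have h2 := exp_min_neg (P := P) (α := Real.pi - θ) (ψ := ψ) (Z := Z) (by linarith)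
      (by linarith) hP (by rw [Real.sin_pi_sub]; linarith) hZ
    rw [Real.cos_pi_sub] at h2
    have e : -(P * Real.cos θ) = P * -Real.cos θ := by ring
    rw [e]
    linarith

/-- **F5 for all `0 ≤ θ ≤ π`** (for `θ ≥ π/2` the bound is negative). -/
theorem f5_pi {N : ℕ} (hN : 1 ≤ N) {u : Fin N → ℂ} (hu : ∀ k, ‖u k‖ ≤ 1) {x P θ φ : ℝ}
    (h0 : 0 ≤ x) (h1 : x < 1) (hθ0 : 0 ≤ θ) (hθ1 : θ ≤ Real.pi)
    (hρ : N * (1 - ‖av u‖ ^ 2) * JJ (av u).re x ≤ P) (hc : P * Real.cos θ ≤ 1)
    (hψ : |φ - N * (av u).im * Th (av u).re x| ≤ θ - P * Real.sin θ) :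
    Real.exp (N * (Real.log (gg (av u).re x) / 2) - P * (1 + Real.cos θ)) * Real.cos θ ≤
      (Complex.exp ((φ : ℂ) * Complex.I) * qq u x).re := by
  obtain ⟨Z, hZ, hq⟩ := q_repr5 hN hu h0 h1
  set ρ := N * (1 - ‖av u‖ ^ 2) * JJ (av u).re x with hρdef
  have hρ0 : 0 ≤ ρ := (norm_nonneg _).trans hZ
  have hP : 0 ≤ P := hρ0.trans hρ
  have hZ' : ‖Z + ((P - ρ : ℝ) : ℂ)‖ ≤ P := by
    refine (norm_add_le _ _).trans ?_
    rw [Complex.norm_real, Real.norm_of_nonneg (by linarith)]
    linarith
  have hmin := exp_min_pi hθ0 hθ1 hP hc hψ hZ'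
  have e : Complex.exp ((φ : ℂ) * Complex.I) * qq u x =
      ((Real.exp (N * (Real.log (gg (av u).re x) / 2) - P) : ℝ) : ℂ) *
        Complex.exp (Z + ((P - ρ : ℝ) : ℂ) +
          ((φ - N * (av u).im * Th (av u).re x : ℝ) : ℂ) * Complex.I) := by
    rw [hq, Complex.ofReal_exp, ← Complex.exp_add, ← Complex.exp_add]
    congr 1
    push_cast
    ring
  rw [e, Complex.re_ofReal_mul]
  have e2 : Real.exp (N * (Real.log (gg (av u).re x) / 2) - P * (1 + Real.cos θ)) * Real.cos θ =
      Real.exp (N * (Real.log (gg (av u).re x) / 2) - P) *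
        (Real.exp (-(P * Real.cos θ)) * Real.cos θ) := by
    rw [← mul_assoc, ← Real.exp_add]
    congr 2
    ring
  rw [e2]
  exact mul_le_mul_of_nonneg_left hmin (Real.exp_pos _).le

/-- accumulation over a cell with a continuous lower bound -/
theorem re_step_fun {N : ℕ} {u : Fin N → ℂ} {a b φ G I : ℝ} {c : ℝ → ℝ} (hab : a ≤ b)
    (hcc : ContinuousOn c (Set.Icc a b))
    (hG : G ≤ (Complex.exp ((φ : ℂ) * Complex.I) * ∫ x in (0 : ℝ)..a, qq u x).re)
    (hc : ∀ x ∈ Set.Icc a b, c x ≤ (Complex.exp ((φ : ℂ) * Complex.I) * qq u x).re)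
    (hI : I ≤ ∫ x in a..b, c x) :
    G + I ≤ (Complex.exp ((φ : ℂ) * Complex.I) * ∫ x in (0 : ℝ)..b, qq u x).re := by
  have h2 : (∫ x in (0 : ℝ)..b, qq u x) = (∫ x in (0 : ℝ)..a, qq u x) + ∫ x in a..b, qq u x :=
    (intervalIntegral.integral_add_adjacent_intervals ((qq_cont u).intervalIntegrable _ _)
      ((qq_cont u).intervalIntegrable _ _)).symm
  have h3 : (Complex.exp ((φ : ℂ) * Complex.I) * ∫ x in a..b, qq u x).re =
      ∫ x in a..b, (Complex.exp ((φ : ℂ) * Complex.I) * qq u x).re := by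
    rw [← intervalIntegral.integral_const_mul]
    have hi : IntervalIntegrable (fun x => Complex.exp ((φ : ℂ) * Complex.I) * qq u x) volume a b :=
      (continuous_const.mul (qq_cont u)).intervalIntegrable _ _
    exact (Complex.reCLM.intervalIntegral_comp_comm hi).symm
  have h4 : (∫ x in a..b, c x) ≤
      ∫ x in a..b, (Complex.exp ((φ : ℂ) * Complex.I) * qq u x).re := by
    apply intervalIntegral.integral_mono_on hab
    · apply ContinuousOn.intervalIntegrable
      rw [Set.uIcc_of_le hab]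
      exact hcc
    · exact (Complex.continuous_re.comp
        (continuous_const.mul (qq_cont u))).intervalIntegrable _ _
    · exact hc
  rw [h2, mul_add, Complex.add_re, h3]
  linarith

end Pool.Agent.Lib.MP_af3a4a_an.P1.CHK.H80
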