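import Pool.Agent.Lib.MP_af3a4a_an.P1.CHK.H80.SJ

/-!
# Formula F5 of helper11 with the exact minimum over the disc (council 2, helper80)

`q(x) = ∏ (1 - x u_k)`, `|u_k| ≤ 1`, `m = av u`, `r = |m|`, `g = 1 - 2 x m₁ + x²`.
-/

namespace Pool.Agent.Lib.MP_af3a4a_an.P1.CHK.H80

open Finset MeasureTheory ComplexConjugate
open Pool.Agent.Lib.MP_af3a4a_an.SV (uu av sq EE)
open Pool.Agent.Lib.MP_af3a4a_an.P1.H80

/-- `g = 1 - 2 x m₁ + x²` -/
def gg (m₁ x : ℝ) : ℝ := 1 - 2 * x * m₁ + x ^ 2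

theorem gg_pos {m₁ x : ℝ} (hm : |m₁| ≤ 1) (h0 : -1 < x) (h1 : x < 1) : 0 < gg m₁ x := by
  unfold gg
  have h2 := abs_le.1 hm
  have h3 : x * m₁ ≤ |x| := by
    calc x * m₁ ≤ |x * m₁| := le_abs_self _
      _ = |x| * |m₁| := abs_mul _ _
      _ ≤ |x| * 1 := mul_le_mul_of_nonneg_left hm (abs_nonneg _)
      _ = |x| := mul_one _
  have h4 : |x| < 1 := abs_lt.2 ⟨h0, h1⟩
  have h5 : x ^ 2 = |x| ^ 2 := (sq_abs x).symm
  nlinarith [sq_nonneg (1 - |x|), mul_pos (sub_pos.2 h4) (sub_pos.2 h4)]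

/-- the centre of the disc of `λ(x)` -/
noncomputable def lamc (m : ℂ) (x : ℝ) : ℂ :=
  (m - ((x * (‖m‖ ^ 2 - x ^ 2) / (1 - x ^ 2) : ℝ) : ℂ)) / ((gg m.re x : ℝ) : ℂ)

/-- **(a) the exact disc of `λ(x)`** -/
theorem schur_c {N : ℕ} (hN : 1 ≤ N) {u : Fin N → ℂ} (hu : ∀ k, ‖u k‖ ≤ 1) {x : ℝ} (h0 : 0 ≤ x)
    (h1 : x < 1) :
    ‖lam u x - lamc (av u) x‖ ≤ x * (1 - ‖av u‖ ^ 2) / ((1 - x ^ 2) * gg (av u).re x) := by
  have hm := av_norm_le hN hu
  have hm1 : |(av u).re| ≤ 1 := (Complex.abs_re_le_norm _).trans hm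
  have hg := gg_pos hm1 (by linarith) h1
  have hx2 : 0 < 1 - x ^ 2 := by nlinarith
  have hne : ∀ k, 1 - (x : ℂ) * u k ≠ 0 := fun k => one_sub_ne' (hu k) h0 h1
  have h := schur_sq hN hu h0 h1
  -- `x λ = p - 1`
  have e1 : (x : ℂ) * lam u x = av (fun k => (1 - (x : ℂ) * u k)⁻¹) - 1 := by
    have hN0 : (N : ℂ) ≠ 0 := by exact_mod_cast (by omega : N ≠ 0)
    unfold lam av
    rw [mul_left_comm, Finset.mul_sum]
    have e2 : ∀ k, (x : ℂ) * (u k / (1 - (x : ℂ) * u k)) = (1 - (x : ℂ) * u k)⁻¹ - 1 := by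
      intro k
      have := hne k
      field_simp
      ring
    simp only [e2]
    rw [Finset.sum_sub_distrib]
    simp only [Finset.sum_const, Finset.card_univ, Fintype.card_fin, nsmul_eq_mul]
    field_simp
  set m := av u with hmdef
  set P := av (fun k => (1 - (x : ℂ) * u k)⁻¹) with hP
  rcases h0.eq_or_lt with hx | hx
  · subst hx
    have e3 : lam u 0 = m := by
      unfold lam
      simp
      rfl
    rw [e3]
    unfold lamc gg
    simp
  set G := (1 - x ^ 2) * gg m.re x with hG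
  have hG0 : 0 < G := mul_pos hx2 hg
  set k := x ^ 2 * (1 - ‖m‖ ^ 2) with hk
  have hk0 : 0 ≤ k := mul_nonneg (sq_nonneg x) (by nlinarith [norm_nonneg m])
  -- the centre
  have key : ‖(G : ℂ) * P - (((1 - x ^ 2 : ℝ) : ℂ) * conj (1 - (x : ℂ) * m) + (k : ℂ))‖ ^ 2 ≤
      k ^ 2 := by
    have hmsq : ‖m‖ ^ 2 = m.re ^ 2 + m.im ^ 2 := norm_sq_re_im m
    have hexp : ‖(G : ℂ) * P - (((1 - x ^ 2 : ℝ) : ℂ) * conj (1 - (x : ℂ) * m) + (k : ℂ))‖ ^ 2 -
        k ^ 2 = G * ((1 - x ^ 2) * ‖(1 - (x : ℂ) * m) * P - 1‖ ^ 2 -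
          k * (2 * P.re - 1 - (1 - x ^ 2) * ‖P‖ ^ 2)) := by
      rw [norm_sq_re_im, norm_sq_re_im, norm_sq_re_im P, hG, hk]
      unfold gg
      rw [hmsq]
      simp only [Complex.sub_re, Complex.sub_im, Complex.mul_re, Complex.mul_im, Complex.one_re,
        Complex.one_im, Complex.ofReal_re, Complex.ofReal_im, Complex.add_re, Complex.add_im,
        Complex.conj_re, Complex.conj_im, map_sub, map_one, map_mul, Complex.conj_ofReal]
      ring
    have h2 : (1 - x ^ 2) * ‖(1 - (x : ℂ) * m) * P - 1‖ ^ 2 -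
        k * (2 * P.re - 1 - (1 - x ^ 2) * ‖P‖ ^ 2) ≤ 0 := by
      have : k * (2 * P.re - 1 - (1 - x ^ 2) * ‖P‖ ^ 2) =
          x ^ 2 * (1 - ‖m‖ ^ 2) * (2 * P.re - 1 - (1 - x ^ 2) * ‖P‖ ^ 2) := by rw [hk]
      linarith
    have h3 := mul_nonpos_of_nonneg_of_nonpos hG0.le h2
    linarith
  have key2 : ‖(G : ℂ) * P - (((1 - x ^ 2 : ℝ) : ℂ) * conj (1 - (x : ℂ) * m) + (k : ℂ))‖ ≤ k :=
    (pow_le_pow_iff_left₀ (norm_nonneg _) hk0 two_ne_zero).1 key
  -- relation with `λ_c`
  have hxc : (x : ℂ) ≠ 0 := by exact_mod_cast hx.ne'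
  have hx2c : ((1 : ℂ) - (x : ℂ) ^ 2) ≠ 0 := by
    have : ((1 : ℂ) - (x : ℂ) ^ 2) = ((1 - x ^ 2 : ℝ) : ℂ) := by push_cast; ring
    rw [this]
    exact_mod_cast hx2.ne'
  have hgc : ((gg m.re x : ℝ) : ℂ) ≠ 0 := by exact_mod_cast hg.ne'
  have hconj : conj m = 2 * (m.re : ℂ) - m := by
    apply Complex.ext
    · simp; ring
    · simp
  have e4 : ((x * G : ℝ) : ℂ) * (lam u x - lamc m x) =
      (G : ℂ) * P - (((1 - x ^ 2 : ℝ) : ℂ) * conj (1 - (x : ℂ) * m) + (k : ℂ)) := by
    have e5 : ((x * G : ℝ) : ℂ) * lam u x = (G : ℂ) * (P - 1) := by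
      rw [← e1]
      push_cast
      ring
    have e6 : ((x * G : ℝ) : ℂ) * lamc m x =
        x * (((1 - x ^ 2 : ℝ) : ℂ) * m - ((x * (‖m‖ ^ 2 - x ^ 2) : ℝ) : ℂ)) := by
      unfold lamc
      rw [hG]
      push_cast
      field_simp
    rw [mul_sub, e5, e6]
    rw [map_sub, map_one, map_mul, Complex.conj_ofReal, hconj, hG, hk]
    unfold gg
    push_cast
    ring
  have e7 : x * G * ‖lam u x - lamc m x‖ ≤ k := by
    have := congrArg norm e4
    rw [norm_mul, Complex.norm_real, Real.norm_of_nonneg (by positivity)] at this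
    rw [this]
    exact key2
  rw [le_div_iff₀ hG0]
  have e8 : x * (‖lam u x - lamc m x‖ * G) ≤ x * (x * (1 - ‖m‖ ^ 2)) := by
    calc x * (‖lam u x - lamc m x‖ * G) = x * G * ‖lam u x - lamc m x‖ := by ring
      _ ≤ k := e7
      _ = _ := by rw [hk]; ring
  exact le_of_mul_le_mul_left e8 hx

/-! ### (b) the representation of `q` -/

/-- `J(x) = ∫_0^x t/((1 - t²) g(t)) dt` -/
noncomputable def JJ (m₁ x : ℝ) : ℝ := ∫ t in (0 : ℝ)..x, t / ((1 - t ^ 2) * gg m₁ t)

/-- `Θ(x) = ∫_0^x dt/g(t)` -/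
noncomputable def Th (m₁ x : ℝ) : ℝ := ∫ t in (0 : ℝ)..x, 1 / gg m₁ t

theorem gg_cont (m₁ : ℝ) : Continuous (gg m₁) := by unfold gg; fun_prop

theorem JJ_integrand_cont {m₁ : ℝ} (hm : |m₁| ≤ 1) :
    ContinuousOn (fun t : ℝ => t / ((1 - t ^ 2) * gg m₁ t)) (Set.Ioo (-1) 1) := by
  apply ContinuousOn.div continuousOn_id
  · exact ((continuous_const.sub (continuous_pow 2)).mul (gg_cont m₁)).continuousOn
  · intro t ht
    have := gg_pos hm ht.1 ht.2
    have h2 : 0 < 1 - t ^ 2 := by nlinarith [ht.1, ht.2]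
    positivity

theorem Th_integrand_cont {m₁ : ℝ} (hm : |m₁| ≤ 1) :
    ContinuousOn (fun t : ℝ => 1 / gg m₁ t) (Set.Ioo (-1) 1) := by
  apply ContinuousOn.div continuousOn_const (gg_cont m₁).continuousOn
  intro t ht
  exact (gg_pos hm ht.1 ht.2).ne'

theorem hasDerivAt_integral {E : Type*} [NormedAddCommGroup E] [NormedSpace ℝ E] [CompleteSpace E]
    {f : ℝ → E} (hf : ContinuousOn f (Set.Ioo (-1) 1)) {x : ℝ} (h0 : -1 < x) (h1 : x < 1) :
    HasDerivAt (fun x => ∫ t in (0 : ℝ)..x, f t) (f x) x := by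
  have hx : x ∈ Set.Ioo (-1 : ℝ) 1 := ⟨h0, h1⟩
  apply intervalIntegral.integral_hasDerivAt_right
  · apply ContinuousOn.intervalIntegrable
    apply hf.mono
    intro t ht
    rw [Set.mem_uIcc] at ht
    constructor <;> rcases ht with ht | ht <;> linarith [ht.1, ht.2]
  · exact hf.stronglyMeasurableAtFilter isOpen_Ioo x hx
  · exact hf.continuousAt (isOpen_Ioo.mem_nhds hx)

/-- **(b)** `q = g^(N/2) exp(-ρ - i N m₂ Θ + Z)`, `|Z| ≤ ρ = N (1 - r²) J` -/
theorem q_repr5 {N : ℕ} (hN : 1 ≤ N) {u : Fin N → ℂ} (hu : ∀ k, ‖u k‖ ≤ 1) {x : ℝ} (h0 : 0 ≤ x)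
    (h1 : x < 1) :
    ∃ Z : ℂ, ‖Z‖ ≤ N * (1 - ‖av u‖ ^ 2) * JJ (av u).re x ∧
      qq u x = Complex.exp (((N * (Real.log (gg (av u).re x) / 2) -
        N * (1 - ‖av u‖ ^ 2) * JJ (av u).re x : ℝ) : ℂ) -
        ((N * (av u).im * Th (av u).re x : ℝ) : ℂ) * Complex.I + Z) := by
  have hm := av_norm_le hN hu
  have hm1 : |(av u).re| ≤ 1 := (Complex.abs_re_le_norm _).trans hm
  set m := av u with hmdef
  -- continuity
  have hlamc : ContinuousOn (lam u) (Set.Ioo (-1) 1) := by
    unfold lam av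
    apply ContinuousOn.mul continuousOn_const
    apply continuousOn_finsetSum
    intro k _
    apply ContinuousOn.div continuousOn_const (by fun_prop)
    intro t ht h
    have h2 : ‖(t : ℂ) * u k‖ < 1 := by
      rw [norm_mul, Complex.norm_real, Real.norm_eq_abs]
      have : |t| < 1 := abs_lt.2 ht
      nlinarith [norm_nonneg (u k), hu k, abs_nonneg t]
    have h3 : (t : ℂ) * u k = 1 := by linear_combination -h
    rw [h3, norm_one] at h2
    exact lt_irrefl _ h2
  have hlc : ContinuousOn (lamc m) (Set.Ioo (-1) 1) := by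
    unfold lamc
    apply ContinuousOn.div
    · apply ContinuousOn.sub continuousOn_const
      apply Complex.continuous_ofReal.comp_continuousOn
      apply ContinuousOn.div
      · fun_prop
      · fun_prop
      · intro t ht
        have h2 : 0 < 1 - t ^ 2 := by nlinarith [ht.1, ht.2]
        exact h2.ne'
    · exact (Complex.continuous_ofReal.comp (gg_cont _)).continuousOn
    · intro t ht
      have := gg_pos hm1 ht.1 ht.2
      exact_mod_cast this.ne'
  set W : ℝ → ℂ := fun x => ∫ t in (0 : ℝ)..x, (lam u t - lamc m t) with hW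
  refine ⟨-(N * W x), ?_, ?_⟩
  · rw [norm_neg, norm_mul, Complex.norm_natCast, mul_assoc]
    apply mul_le_mul_of_nonneg_left _ (Nat.cast_nonneg N)
    simp only [hW]
    unfold JJ
    rw [← intervalIntegral.integral_const_mul]
    refine (intervalIntegral.norm_integral_le_integral_norm h0).trans ?_
    apply intervalIntegral.integral_mono_on h0
    · apply ContinuousOn.intervalIntegrable
      rw [Set.uIcc_of_le h0]
      apply ((hlamc.sub hlc).mono _).norm
      intro t ht
      exact ⟨by linarith [ht.1], by linarith [ht.2]⟩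
    · apply ContinuousOn.intervalIntegrable
      rw [Set.uIcc_of_le h0]
      apply continuousOn_const.mul
      apply (JJ_integrand_cont hm1).mono
      intro t ht
      exact ⟨by linarith [ht.1], by linarith [ht.2]⟩
    · intro t ht
      have := schur_c hN hu ht.1 (lt_of_le_of_lt ht.2 h1)
      refine this.trans (le_of_eq ?_)
      rw [← hmdef]
      ring
  · -- the function with zero derivative
    set Ex : ℝ → ℂ := fun x => (((N * (Real.log (gg m.re x) / 2) -
        N * (1 - ‖m‖ ^ 2) * JJ m.re x : ℝ) : ℂ) -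
        ((N * m.im * Th m.re x : ℝ) : ℂ) * Complex.I + -(N * W x)) with hEx
    have hd : ∀ t ∈ Set.Icc 0 x, HasDerivAt Ex (-(N * lam u t)) t := by
      intro t ht
      have ht0 : -1 < t := by linarith [ht.1]
      have ht1 : t < 1 := lt_of_le_of_lt ht.2 h1
      have hg := gg_pos hm1 ht0 ht1
      have hx2 : 0 < 1 - t ^ 2 := by nlinarith
      have d1 : HasDerivAt (gg m.re) (-2 * m.re + 2 * t) t := by
        unfold gg
        have := (((hasDerivAt_id t).const_mul 2).mul_const m.re).const_sub 1 |>.add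
          (hasDerivAt_pow 2 t)
        refine this.congr_deriv ?_
        simp
      have d2 : HasDerivAt (fun t => Real.log (gg m.re t) / 2) ((-2 * m.re + 2 * t) / gg m.re t / 2)
          t := (d1.log hg.ne').div_const 2
      have d3 := hasDerivAt_integral (JJ_integrand_cont hm1) ht0 ht1
      have d4 := hasDerivAt_integral (Th_integrand_cont hm1) ht0 ht1
      have d5 := hasDerivAt_integral (hlamc.sub hlc) ht0 ht1
      have d6 : HasDerivAt (fun t => N * (Real.log (gg m.re t) / 2) -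
          N * (1 - ‖m‖ ^ 2) * JJ m.re t) (N * ((-2 * m.re + 2 * t) / gg m.re t / 2) -
          N * (1 - ‖m‖ ^ 2) * (t / ((1 - t ^ 2) * gg m.re t))) t :=
        (d2.const_mul _).sub (d3.const_mul _)
      have d7 : HasDerivAt (fun t => N * m.im * Th m.re t) (N * m.im * (1 / gg m.re t)) t :=
        d4.const_mul _
      have d8 : HasDerivAt W (lam u t - lamc m t) t := d5
      have d9 := (d6.ofReal_comp.sub (d7.ofReal_comp.mul_const Complex.I)).add
        (d8.const_mul (N : ℂ)).neg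
      refine d9.congr_deriv ?_
      have hgc : ((gg m.re t : ℝ) : ℂ) ≠ 0 := by exact_mod_cast hg.ne'
      have hx2c : ((1 : ℂ) - (t : ℂ) ^ 2) ≠ 0 := by
        have : ((1 : ℂ) - (t : ℂ) ^ 2) = ((1 - t ^ 2 : ℝ) : ℂ) := by push_cast; ring
        rw [this]
        exact_mod_cast hx2.ne'
      have hmI : m = (m.re : ℂ) + (m.im : ℂ) * Complex.I := (Complex.re_add_im m).symm
      have hlamceq : lamc m t = ((m.re : ℂ) + (m.im : ℂ) * Complex.I -
          (t * ((‖m‖ : ℂ) ^ 2 - t ^ 2) / (1 - (t : ℂ) ^ 2))) / ((gg m.re t : ℝ) : ℂ) := by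
        unfold lamc
        rw [← hmI]
        push_cast
        ring
      rw [hlamceq]
      push_cast
      field_simp
      ring
    have hconst := constant_of_has_deriv_right_zero (f := fun t => qq u t * Complex.exp (-(Ex t)))
      (a := 0) (b := x) (by
        apply ContinuousOn.mul (qq_cont u).continuousOn
        apply Complex.continuous_exp.comp_continuousOn
        apply ContinuousOn.neg
        intro t ht
        exact (hd t ht).continuousAt.continuousWithinAt) (by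
        intro t ht
        have ht' : t ∈ Set.Icc 0 x := ⟨ht.1, ht.2.le⟩
        have ht1 : t < 1 := lt_trans ht.2 h1
        have d1 := qq_hasDerivAt hN hu ht.1 ht1
        have d2 := (hd t ht').neg.cexp
        refine ((d1.mul d2).congr_deriv ?_).hasDerivWithinAt
        ring) x ⟨h0, le_rfl⟩
    have hE0 : Ex 0 = 0 := by
      simp only [hEx, hW]
      unfold gg JJ Th
      simp
    simp only [hE0, neg_zero, Complex.exp_zero, mul_one, qq_zero] at hconst
    have h5 : qq u x = Complex.exp (Ex x) := by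
      have h6 : Complex.exp (-(Ex x)) * Complex.exp (Ex x) = 1 := by
        rw [← Complex.exp_add]
        simp
      calc qq u x = qq u x * (Complex.exp (-(Ex x)) * Complex.exp (Ex x)) := by rw [h6, mul_one]
        _ = (qq u x * Complex.exp (-(Ex x))) * Complex.exp (Ex x) := by ring
        _ = Complex.exp (Ex x) := by rw [hconst, one_mul]
    exact h5

/-! ### (c) the exact minimum of `Re exp` over a disc -/

/-- `P (1 - sin θ) ≤ π/2 - θ` if `P cos θ ≤ 1` -/
theorem aux_half {P θ : ℝ} (h0 : 0 ≤ θ) (h1 : θ < Real.pi / 2) (hP : 0 ≤ P)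
    (hc : P * Real.cos θ ≤ 1) : P * (1 - Real.sin θ) ≤ Real.pi / 2 - θ := by
  have hcos : 0 < Real.cos θ := Real.cos_pos_of_mem_Ioo ⟨by linarith [Real.pi_pos], h1⟩
  obtain ⟨φ, hφ⟩ : ∃ φ, φ = Real.pi / 2 - θ := ⟨_, rfl⟩
  have hφ0 : 0 ≤ φ := by linarith
  have hφ1 : φ ≤ Real.pi / 2 := by linarith
  have e1 : Real.sin θ = Real.cos φ := by rw [hφ, Real.cos_pi_div_two_sub]
  have e2 : Real.cos θ = Real.sin φ := by rw [hφ, Real.sin_pi_div_two_sub]
  have h3 : 1 - Real.cos φ ≤ φ * Real.sin φ := by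
    have a1 := Real.one_sub_sq_div_two_le_cos (x := φ)
    have a2 := Real.mul_le_sin hφ0 hφ1
    have a3 : (1 : ℝ) / 2 ≤ 2 / Real.pi := by
      rw [div_le_div_iff₀ (by norm_num) Real.pi_pos]
      linarith [Real.pi_le_four]
    have a4 : φ / 2 ≤ Real.sin φ := by
      calc φ / 2 = 1 / 2 * φ := by ring
        _ ≤ 2 / Real.pi * φ := mul_le_mul_of_nonneg_right a3 hφ0
        _ ≤ _ := a2
    nlinarith
  have h4 : P * (1 - Real.sin θ) * Real.cos θ ≤ (Real.pi / 2 - θ) * Real.cos θ := by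
    calc P * (1 - Real.sin θ) * Real.cos θ = (P * Real.cos θ) * (1 - Real.sin θ) := by ring
      _ ≤ 1 * (1 - Real.sin θ) :=
          mul_le_mul_of_nonneg_right hc (by linarith [Real.sin_le_one θ])
      _ = 1 - Real.cos φ := by rw [one_mul, e1]
      _ ≤ φ * Real.sin φ := h3
      _ = _ := by rw [e2, hφ]
  exact le_of_mul_le_mul_right h4 hcos

/-- the minimum over `η` -/
theorem eta_min {P θ η : ℝ} (h0 : 0 ≤ θ) (h1 : θ < Real.pi / 2) (hP : 0 ≤ P)
    (hc : P * Real.cos θ ≤ 1) (hΨ : 0 ≤ θ - P * Real.sin θ) (hη0 : 0 ≤ η)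
    (hη1 : η ≤ Real.pi / 2) :
    Real.exp (-(P * Real.cos θ)) * Real.cos θ ≤
      Real.exp (-(P * Real.cos η)) * Real.cos (P * Real.sin η + (θ - P * Real.sin θ)) := by
  set Ψ := θ - P * Real.sin θ with hΨdef
  set F : ℝ → ℝ := fun η => Real.exp (-(P * Real.cos η)) * Real.cos (P * Real.sin η + Ψ) with hF
  have hpi := Real.pi_pos
  have hβ : ∀ η : ℝ, P * Real.sin η + Ψ ≤ Real.pi / 2 := by
    intro η
    have a1 := aux_half h0 h1 hP hc
    have a2 := mul_le_mul_of_nonneg_left (Real.sin_le_one η) hP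
    rw [hΨdef]
    linarith
  have hd : ∀ η : ℝ, HasDerivAt F (P * Real.exp (-(P * Real.cos η)) *
      Real.sin (η - (P * Real.sin η + Ψ))) η := by
    intro η
    have d1 : HasDerivAt (fun η => -(P * Real.cos η)) (P * Real.sin η) η := by
      have := ((Real.hasDerivAt_cos η).const_mul P).neg
      refine this.congr_deriv ?_
      ring
    have d2 : HasDerivAt (fun η => P * Real.sin η + Ψ) (P * Real.cos η) η :=
      ((Real.hasDerivAt_sin η).const_mul P).add_const Ψ
    refine (d1.exp.mul d2.cos).congr_deriv ?_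
    rw [Real.sin_sub]
    ring
  have hFθ : F θ = Real.exp (-(P * Real.cos θ)) * Real.cos θ := by
    simp only [hF, hΨdef]
    congr 2
    ring
  show _ ≤ F η
  rw [← hFθ]
  rcases le_total η θ with h | h
  · -- decreasing on `[0, θ]`
    have hanti : AntitoneOn F (Set.Icc 0 θ) := by
      apply antitoneOn_of_deriv_nonpos (convex_Icc 0 θ)
      · exact fun x _ => (hd x).continuousAt.continuousWithinAt
      · exact fun x _ => (hd x).differentiableAt.differentiableWithinAt
      · intro x hx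
        rw [interior_Icc] at hx
        rw [(hd x).deriv]
        have hx0 : 0 ≤ x := hx.1.le
        have hk : x - (P * Real.sin x + Ψ) ≤ 0 := by
          -- `sin x ≥ (x/θ) sin θ`
          have hθ : 0 < θ := lt_trans hx.1 hx.2
          have hconc := strictConcaveOn_sin_Icc.concaveOn
          have ht0 : 0 ≤ x / θ := by positivity
          have ht1 : x / θ ≤ 1 := (div_le_one hθ).2 hx.2.le
          have h5 := hconc.2 (x := 0) (y := θ) ⟨le_rfl, hpi.le⟩ ⟨h0, by linarith⟩
            (by linarith : 0 ≤ 1 - x / θ) ht0 (by ring)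
          simp only [smul_eq_mul, mul_zero, Real.sin_zero, zero_add] at h5
          have e1 : x / θ * θ = x := by field_simp
          rw [e1] at h5
          have h6 := mul_le_mul_of_nonneg_left h5 hP
          have h7 : x - P * (x / θ * Real.sin θ) = x / θ * Ψ := by
            rw [hΨdef]
            field_simp
          have h8 : x / θ * Ψ ≤ Ψ := mul_le_of_le_one_left hΨ ht1
          linarith
        have hk2 : -Real.pi ≤ x - (P * Real.sin x + Ψ) := by
          have := hβ x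
          linarith
        have hs : Real.sin (x - (P * Real.sin x + Ψ)) ≤ 0 :=
          Real.sin_nonpos_of_nonpos_of_neg_pi_le hk hk2
        exact mul_nonpos_of_nonneg_of_nonpos (by positivity) hs
    exact hanti ⟨hη0, h⟩ ⟨h0, le_rfl⟩ h
  · have hmono : MonotoneOn F (Set.Icc θ (Real.pi / 2)) := by
      apply monotoneOn_of_deriv_nonneg (convex_Icc θ (Real.pi / 2))
      · exact fun x _ => (hd x).continuousAt.continuousWithinAt
      · exact fun x _ => (hd x).differentiableAt.differentiableWithinAt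
      · intro x hx
        rw [interior_Icc] at hx
        rw [(hd x).deriv]
        have hk : 0 ≤ x - (P * Real.sin x + Ψ) := by
          have e1 : Real.sin x - Real.sin θ = 2 * Real.sin ((x - θ) / 2) *
              Real.cos ((x + θ) / 2) := Real.sin_sub_sin x θ
          have a1 : Real.sin ((x - θ) / 2) ≤ (x - θ) / 2 := Real.sin_le (by linarith [hx.1])
          have a2 : Real.cos ((x + θ) / 2) ≤ Real.cos θ :=
            Real.cos_le_cos_of_nonneg_of_le_pi h0 (by linarith [hx.2]) (by linarith [hx.1])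
          have a3 : 0 ≤ Real.cos ((x + θ) / 2) :=
            Real.cos_nonneg_of_mem_Icc ⟨by linarith [hx.1], by linarith [hx.2]⟩
          have a4 : 0 ≤ Real.sin ((x - θ) / 2) :=
            Real.sin_nonneg_of_nonneg_of_le_pi (by linarith [hx.1]) (by linarith [hx.2])
          have a5 : Real.sin x - Real.sin θ ≤ (x - θ) * Real.cos θ := by
            rw [e1]
            have : Real.sin ((x - θ) / 2) * Real.cos ((x + θ) / 2) ≤ (x - θ) / 2 * Real.cos θ :=
              mul_le_mul a1 a2 a3 (by linarith [hx.1])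
            linarith
          have a6 := mul_le_mul_of_nonneg_left a5 hP
          have a7 : P * ((x - θ) * Real.cos θ) ≤ x - θ := by
            calc P * ((x - θ) * Real.cos θ) = (x - θ) * (P * Real.cos θ) := by ring
              _ ≤ (x - θ) * 1 := mul_le_mul_of_nonneg_left hc (by linarith [hx.1])
              _ = x - θ := mul_one _
          rw [hΨdef]
          linarith
        have hk2 : x - (P * Real.sin x + Ψ) ≤ Real.pi := by
          have hx0 : 0 ≤ Real.sin x :=
            Real.sin_nonneg_of_nonneg_of_le_pi (by linarith [hx.1]) (by linarith [hx.2])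
          have := mul_nonneg hP hx0
          linarith [hx.2]
        exact mul_nonneg (by positivity) (Real.sin_nonneg_of_nonneg_of_le_pi hk hk2)
    exact hmono ⟨le_rfl, h1.le⟩ ⟨h, hη1⟩ h

/-- **(c) exact minimum of `Re exp` over a disc** -/
theorem exp_min {P θ ψ : ℝ} {Z : ℂ} (h0 : 0 ≤ θ) (h1 : θ < Real.pi / 2) (hP : 0 ≤ P)
    (hc : P * Real.cos θ ≤ 1) (hψ : |ψ| ≤ θ - P * Real.sin θ) (hZ : ‖Z‖ ≤ P) :
    Real.exp (-(P * Real.cos θ)) * Real.cos θ ≤ (Complex.exp (Z + (ψ : ℂ) * Complex.I)).re := by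
  have hΨ : 0 ≤ θ - P * Real.sin θ := (abs_nonneg _).trans hψ
  have hpi := Real.pi_pos
  have hre : (Complex.exp (Z + (ψ : ℂ) * Complex.I)).re =
      Real.exp Z.re * Real.cos (Z.im + ψ) := by
    rw [Complex.exp_re]
    simp
  rw [hre]
  have hn : Z.re ^ 2 + Z.im ^ 2 ≤ P ^ 2 := by
    rw [← norm_sq_re_im]
    exact pow_le_pow_left₀ (norm_nonneg _) hZ 2
  have him : |Z.im| ≤ P := (Complex.abs_im_le_norm Z).trans hZ
  -- the angle `η`
  obtain ⟨η, hη0, hη1, hηs⟩ : ∃ η : ℝ, 0 ≤ η ∧ η ≤ Real.pi / 2 ∧ P * Real.sin η = |Z.im| := by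
    rcases hP.eq_or_lt with h | h
    · refine ⟨0, le_rfl, by linarith, ?_⟩
      rw [← h] at him ⊢
      have : |Z.im| = 0 := le_antisymm him (abs_nonneg _)
      rw [this, zero_mul]
    · refine ⟨Real.arcsin (|Z.im| / P), ?_, Real.arcsin_le_pi_div_two _, ?_⟩
      · exact Real.arcsin_nonneg.2 (by positivity)
      · rw [Real.sin_arcsin]
        · field_simp
        · have : 0 ≤ |Z.im| / P := by positivity
          linarith
        · exact (div_le_one h).2 him
  have hcosη : 0 ≤ Real.cos η := Real.cos_nonneg_of_mem_Icc ⟨by linarith, hη1⟩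
  -- the real part
  have ha : -(P * Real.cos η) ≤ Z.re := by
    have h2 : Z.re ^ 2 ≤ (P * Real.cos η) ^ 2 := by
      have h3 : (P * Real.sin η) ^ 2 = Z.im ^ 2 := by rw [hηs, sq_abs]
      have h4 := Real.sin_sq_add_cos_sq η
      have h5 : (P * Real.sin η) ^ 2 + (P * Real.cos η) ^ 2 = P ^ 2 := by
        rw [mul_pow, mul_pow, ← mul_add, h4, mul_one]
      linarith
    exact (abs_le.1 (abs_le_of_sq_le_sq h2 (mul_nonneg hP hcosη))).1
  have hmain := eta_min h0 h1 hP hc hΨ hη0 hη1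
  rw [hηs] at hmain
  have hβ : |Z.im| + (θ - P * Real.sin θ) ≤ Real.pi / 2 := by
    have a1 := aux_half h0 h1 hP hc
    linarith
  have hcosβ : 0 ≤ Real.cos (|Z.im| + (θ - P * Real.sin θ)) :=
    Real.cos_nonneg_of_mem_Icc ⟨by linarith [abs_nonneg Z.im], hβ⟩
  have hcos : Real.cos (|Z.im| + (θ - P * Real.sin θ)) ≤ Real.cos (Z.im + ψ) := by
    rw [← Real.cos_abs (Z.im + ψ)]
    apply Real.cos_le_cos_of_nonneg_of_le_pi (abs_nonneg _) (by linarith)
    exact (abs_add_le _ _).trans (by linarith)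
  calc Real.exp (-(P * Real.cos θ)) * Real.cos θ ≤
      Real.exp (-(P * Real.cos η)) * Real.cos (|Z.im| + (θ - P * Real.sin θ)) := hmain
    _ ≤ Real.exp Z.re * Real.cos (Z.im + ψ) :=
        mul_le_mul (Real.exp_le_exp.2 ha) hcos hcosβ (Real.exp_pos _).le

/-- **F5**: pointwise lower bound -/
theorem f5 {N : ℕ} (hN : 1 ≤ N) {u : Fin N → ℂ} (hu : ∀ k, ‖u k‖ ≤ 1) {x P θ φ : ℝ} (h0 : 0 ≤ x)
    (h1 : x < 1) (hθ0 : 0 ≤ θ) (hθ1 : θ < Real.pi / 2)
    (hρ : N * (1 - ‖av u‖ ^ 2) * JJ (av u).re x ≤ P) (hc : P * Real.cos θ ≤ 1)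
    (hψ : |φ - N * (av u).im * Th (av u).re x| ≤ θ - P * Real.sin θ) :
    Real.exp (N * (Real.log (gg (av u).re x) / 2) - P * (1 + Real.cos θ)) * Real.cos θ ≤
      (Complex.exp ((φ : ℂ) * Complex.I) * qq u x).re := by
  obtain ⟨Z, hZ, hq⟩ := q_repr5 hN hu h0 h1
  set ρ := N * (1 - ‖av u‖ ^ 2) * JJ (av u).re x with hρdef
  have hρ0 : 0 ≤ ρ := (norm_nonneg _).trans hZ
  have hP : 0 ≤ P := hρ0.trans hρ
  have hmin := exp_min hθ0 hθ1 hP hc hψ (hZ.trans hρ)
  have e : Complex.exp ((φ : ℂ) * Complex.I) * qq u x =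
      ((Real.exp (N * (Real.log (gg (av u).re x) / 2) - ρ) : ℝ) : ℂ) *
        Complex.exp (Z + ((φ - N * (av u).im * Th (av u).re x : ℝ) : ℂ) * Complex.I) := by
    rw [hq, Complex.ofReal_exp, ← Complex.exp_add, ← Complex.exp_add]
    congr 1
    push_cast
    ring
  rw [e, Complex.re_ofReal_mul]
  have hcos : 0 ≤ Real.cos θ := Real.cos_nonneg_of_mem_Icc ⟨by linarith, hθ1.le⟩
  have e2 : Real.exp (N * (Real.log (gg (av u).re x) / 2) - P * (1 + Real.cos θ)) * Real.cos θ =
      Real.exp (N * (Real.log (gg (av u).re x) / 2) - P) *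
        (Real.exp (-(P * Real.cos θ)) * Real.cos θ) := by
    rw [← mul_assoc, ← Real.exp_add]
    congr 2
    ring
  rw [e2]
  apply mul_le_mul _ hmin (by positivity) (Real.exp_pos _).le
  apply Real.exp_le_exp.2
  linarith

/-- accumulation of lower bounds over cells -/
theorem re_step {N : ℕ} {u : Fin N → ℂ} {a b φ G c : ℝ} (hab : a ≤ b)
    (hG : G ≤ (Complex.exp ((φ : ℂ) * Complex.I) * ∫ x in (0 : ℝ)..a, qq u x).re)
    (hc : ∀ x ∈ Set.Icc a b, c ≤ (Complex.exp ((φ : ℂ) * Complex.I) * qq u x).re) :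
    G + (b - a) * c ≤ (Complex.exp ((φ : ℂ) * Complex.I) * ∫ x in (0 : ℝ)..b, qq u x).re := by
  have h2 : (∫ x in (0 : ℝ)..b, qq u x) = (∫ x in (0 : ℝ)..a, qq u x) + ∫ x in a..b, qq u x :=
    (intervalIntegral.integral_add_adjacent_intervals ((qq_cont u).intervalIntegrable _ _)
      ((qq_cont u).intervalIntegrable _ _)).symm
  have h3 : (Complex.exp ((φ : ℂ) * Complex.I) * ∫ x in a..b, qq u x).re =
      ∫ x in a..b, (Complex.exp ((φ : ℂ) * Complex.I) * qq u x).re := by
    rw [← intervalIntegral.integral_const_mul]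
    have hi : IntervalIntegrable (fun x => Complex.exp ((φ : ℂ) * Complex.I) * qq u x) volume a b :=
      (continuous_const.mul (qq_cont u)).intervalIntegrable _ _
    exact (Complex.reCLM.intervalIntegral_comp_comm hi).symm
  have h4 : (b - a) * c ≤ ∫ x in a..b, (Complex.exp ((φ : ℂ) * Complex.I) * qq u x).re := by
    calc (b - a) * c = ∫ _x in a..b, c := by simp
      _ ≤ _ := by
        apply intervalIntegral.integral_mono_on hab
        · simp
        · exact (Complex.continuous_re.comp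
            (continuous_const.mul (qq_cont u))).intervalIntegrable _ _
        · exact hc
  rw [h2, mul_add, Complex.add_re, h3]
  linarith

/-- end of the accumulation -/
theorem re_le_norm' {I : ℂ} {φ G : ℝ} (h : G ≤ (Complex.exp ((φ : ℂ) * Complex.I) * I).re) :
    G ≤ ‖I‖ := by
  refine h.trans ((Complex.re_le_norm _).trans (le_of_eq ?_))
  rw [norm_mul, Complex.norm_exp_ofReal_mul_I, one_mul]

end Pool.Agent.Lib.MP_af3a4a_an.P1.CHK.H80
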