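import Pool.Agent.Lib.MP_af3a4a_an.P1.H80.Normal

/-!
# (PL): the formula (U) with a piecewise linear pivot, council 2, helper80

`q(l) = ∏ (1 - l v_k)`, `Λ(l) = av (v/(1 - l v))`, cell `[a, b]`, `H` affine on the cell.
-/

namespace Pool.Agent.Lib.MP_af3a4a_an.P1.CHK.H80

open Finset MeasureTheory intervalIntegral ComplexConjugate
open Pool.Agent.Lib.MP_af3a4a_an.SV (uu av sq EE)
open Pool.Agent.Lib.MP_af3a4a_an.P1.H80

section

variable {N : ℕ} {v : Fin N → ℂ}

/-- derivative of `q`, general form -/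
theorem qq_hasDerivAt' (hN : 1 ≤ N) {x : ℝ} (hne : ∀ k, 1 - (x : ℂ) * v k ≠ 0) :
    HasDerivAt (qq v) (-(N * lam v x * qq v x)) x := by
  have hd : ∀ k ∈ (Finset.univ : Finset (Fin N)),
      HasDerivAt (fun x : ℝ => 1 - (x : ℂ) * v k) (-v k) x := by
    intro k _
    simpa using ((Complex.ofRealCLM.hasDerivAt (x := x)).mul_const (v k)).const_sub 1
  have h := HasDerivAt.fun_finsetProd hd
  have hq : qq v = fun x : ℝ => ∏ k, (1 - (x : ℂ) * v k) := rfl
  rw [hq]
  refine h.congr_deriv ?_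
  have e1 : (N : ℂ) * lam v x = ∑ k, v k / (1 - (x : ℂ) * v k) := by
    unfold lam
    rw [← sum_av hN]
  rw [e1, Finset.sum_mul, ← Finset.sum_neg_distrib]
  refine Finset.sum_congr rfl fun k hk => ?_
  have e := Finset.mul_prod_erase Finset.univ (fun k => 1 - (x : ℂ) * v k) hk
  show (∏ j ∈ Finset.univ.erase k, (1 - (x : ℂ) * v j)) • -v k =
    -(v k / (1 - (x : ℂ) * v k) * ∏ k, (1 - (x : ℂ) * v k))
  rw [smul_eq_mul, ← e]
  have := hne k
  field_simp

/-- the pair `(lower end, state)`: invariant of the recursion -/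
def Inv (v : Fin N → ℂ) (l : ℝ) (H₀ H : ℂ) (A : ℝ) : Prop :=
  ‖(∫ x in (0 : ℝ)..l, qq v x) - (H₀ - H * qq v l)‖ ≤ A

theorem inv_zero (v : Fin N → ℂ) (H₀ : ℂ) : Inv v 0 H₀ H₀ 0 := by
  unfold Inv
  simp

/-- the conclusion of the recursion -/
theorem Inv.lower {l : ℝ} {H₀ H : ℂ} {A E : ℝ} (h : Inv v l H₀ H A) (hE : ‖qq v l‖ ≤ E) :
    ‖H₀‖ - ‖H‖ * E - A ≤ ‖∫ x in (0 : ℝ)..l, qq v x‖ := by
  unfold Inv at h
  have h1 : ‖H₀‖ ≤ ‖∫ x in (0 : ℝ)..l, qq v x‖ + ‖H * qq v l‖ +
      ‖(∫ x in (0 : ℝ)..l, qq v x) - (H₀ - H * qq v l)‖ := by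
    have e : H₀ = (∫ x in (0 : ℝ)..l, qq v x) + H * qq v l -
        ((∫ x in (0 : ℝ)..l, qq v x) - (H₀ - H * qq v l)) := by ring
    calc ‖H₀‖ = ‖(∫ x in (0 : ℝ)..l, qq v x) + H * qq v l -
        ((∫ x in (0 : ℝ)..l, qq v x) - (H₀ - H * qq v l))‖ := by rw [← e]
      _ ≤ _ := (norm_sub_le _ _).trans (by gcongr; exact norm_add_le _ _)
  have h2 : ‖H * qq v l‖ ≤ ‖H‖ * E := by
    rw [norm_mul]
    exact mul_le_mul_of_nonneg_left hE (norm_nonneg _)
  linarith

/-- an affine function is bounded by its values at the end points -/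
theorem affine_bound {a b : ℝ} (hab : a < b) {P Q : ℂ} {x : ℝ} (hx : x ∈ Set.Icc a b) :
    ‖P + ((x - a : ℝ) : ℂ) * Q‖ ≤ max ‖P‖ ‖P + ((b - a : ℝ) : ℂ) * Q‖ := by
  have hba : 0 < b - a := by linarith
  set θ := (x - a) / (b - a) with hθ
  have h0 : 0 ≤ θ := div_nonneg (by linarith [hx.1]) hba.le
  have h1 : θ ≤ 1 := (div_le_one hba).2 (by linarith [hx.2])
  have e : P + ((x - a : ℝ) : ℂ) * Q = ((1 - θ : ℝ) : ℂ) * P +
      (θ : ℂ) * (P + ((b - a : ℝ) : ℂ) * Q) := by
    have h3 : (x - a : ℝ) = θ * (b - a) := by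
      rw [hθ]; field_simp
    rw [h3]
    push_cast
    ring
  rw [e]
  calc ‖((1 - θ : ℝ) : ℂ) * P + (θ : ℂ) * (P + ((b - a : ℝ) : ℂ) * Q)‖
      ≤ (1 - θ) * ‖P‖ + θ * ‖P + ((b - a : ℝ) : ℂ) * Q‖ := by
        refine (norm_add_le _ _).trans (le_of_eq ?_)
        rw [norm_mul, norm_mul, Complex.norm_real, Complex.norm_real, Real.norm_of_nonneg h0,
          Real.norm_of_nonneg (by linarith)]
    _ ≤ (1 - θ) * max ‖P‖ ‖P + ((b - a : ℝ) : ℂ) * Q‖ +
        θ * max ‖P‖ ‖P + ((b - a : ℝ) : ℂ) * Q‖ := by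
        gcongr
        · exact le_max_left _ _
        · exact le_max_right _ _
    _ = _ := by ring

/-- **one step of (PL)**: `I` bounds the integral of `|q|` over the cell -/
theorem Inv.step (hN : 1 ≤ N) {a b : ℝ} (hab : a < b)
    (hne : ∀ x ∈ Set.Icc a b, ∀ k, 1 - (x : ℂ) * v k ≠ 0)
    {L : ℂ} {s I : ℝ} (hs : ∀ x ∈ Set.Icc a b, ‖lam v x - L‖ ≤ s)
    (hI : ∫ x in a..b, ‖qq v x‖ ≤ I) {H₀ H K : ℂ} {A B : ℝ} (h : Inv v a H₀ H A)
    (hB : max ‖1 + (K - H) / ((b - a : ℝ) : ℂ) - N * L * H‖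
      ‖1 + (K - H) / ((b - a : ℝ) : ℂ) - N * L * K‖ + N * s * max ‖H‖ ‖K‖ ≤ B) :
    Inv v b H₀ K (A + B * I) := by
  have hba : 0 < b - a := by linarith
  have hbac : ((b - a : ℝ) : ℂ) ≠ 0 := by exact_mod_cast hba.ne'
  set D : ℂ := (K - H) / ((b - a : ℝ) : ℂ) with hD
  set F : ℝ → ℂ := fun x => H + ((x - a : ℝ) : ℂ) * D with hF
  have hFa : F a = H := by simp [hF]
  have hFb : F b = K := by
    simp only [hF, hD]
    field_simp
    ring
  have hFd : ∀ x : ℝ, HasDerivAt F D x := by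
    intro x
    have h1 : HasDerivAt (fun x : ℝ => ((x - a : ℝ) : ℂ)) 1 x := by
      have := ((hasDerivAt_id x).sub_const a).ofReal_comp
      simpa using this
    simpa [hF] using (h1.mul_const D).const_add H
  have hFc : Continuous F := by
    simp only [hF]
    fun_prop
  have hlamc : ContinuousOn (lam v) (Set.Icc a b) := by
    unfold lam av
    apply ContinuousOn.mul continuousOn_const
    apply continuousOn_finsetSum
    intro k _
    apply ContinuousOn.div continuousOn_const (by fun_prop)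
    intro x hx
    exact hne x hx k
  have hGc : ContinuousOn (fun x => (1 + D - N * lam v x * F x) * qq v x) (Set.Icc a b) := by
    apply ContinuousOn.mul _ (qq_cont v).continuousOn
    apply ContinuousOn.sub continuousOn_const
    exact (continuousOn_const.mul hlamc).mul hFc.continuousOn
  have hd : ∀ x ∈ Set.uIcc a b, HasDerivAt (fun x => F x * qq v x)
      ((1 + D - N * lam v x * F x) * qq v x - qq v x) x := by
    intro x hx
    rw [Set.uIcc_of_le hab.le] at hx
    refine ((hFd x).mul (qq_hasDerivAt' hN (hne x hx))).congr_deriv ?_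
    ring
  have hi1 : IntervalIntegrable (fun x => (1 + D - N * lam v x * F x) * qq v x) volume a b := by
    apply ContinuousOn.intervalIntegrable
    rw [Set.uIcc_of_le hab.le]
    exact hGc
  have hi2 : IntervalIntegrable (fun x => qq v x) volume a b := (qq_cont v).intervalIntegrable _ _
  have h1 := intervalIntegral.integral_eq_sub_of_hasDerivAt hd (hi1.sub hi2)
  rw [intervalIntegral.integral_sub hi1 hi2, hFa, hFb] at h1
  have h2 : (∫ x in (0 : ℝ)..b, qq v x) = (∫ x in (0 : ℝ)..a, qq v x) + ∫ x in a..b, qq v x :=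
    (intervalIntegral.integral_add_adjacent_intervals ((qq_cont v).intervalIntegrable _ _)
      ((qq_cont v).intervalIntegrable _ _)).symm
  -- the bound of the integrand
  have hs0 : 0 ≤ s := (norm_nonneg _).trans (hs a ⟨le_rfl, hab.le⟩)
  have hB0 : ∀ x ∈ Set.Icc a b, ‖1 + D - N * lam v x * F x‖ ≤ B := by
    intro x hx
    have e1 : 1 + D - N * lam v x * F x = (1 + D - N * L * F x) - N * (lam v x - L) * F x := by
      ring
    have b1 : ‖1 + D - N * L * F x‖ ≤ max ‖1 + D - N * L * H‖ ‖1 + D - N * L * K‖ := by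
      have := affine_bound hab (P := 1 + D - N * L * H) (Q := -(N * L * D)) hx
      have e2 : 1 + D - N * L * H + ((x - a : ℝ) : ℂ) * -(N * L * D) = 1 + D - N * L * F x := by
        simp only [hF]; ring
      have e3 : 1 + D - N * L * H + ((b - a : ℝ) : ℂ) * -(N * L * D) = 1 + D - N * L * K := by
        rw [← hFb]
        simp only [hF]; ring
      rwa [e2, e3] at this
    have b2 : ‖F x‖ ≤ max ‖H‖ ‖K‖ := by
      have := affine_bound hab (P := H) (Q := D) hx
      have e3 : H + ((b - a : ℝ) : ℂ) * D = K := by rw [← hFb]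
      rwa [e3] at this
    rw [e1]
    refine (norm_sub_le _ _).trans (le_trans ?_ hB)
    apply add_le_add b1
    rw [norm_mul, norm_mul, Complex.norm_natCast]
    apply mul_le_mul _ b2 (norm_nonneg _) (by positivity)
    exact mul_le_mul_of_nonneg_left (hs x hx) (Nat.cast_nonneg N)
  have hB00 : 0 ≤ B := (norm_nonneg _).trans (hB0 a ⟨le_rfl, hab.le⟩)
  have h3 : ‖∫ x in a..b, (1 + D - N * lam v x * F x) * qq v x‖ ≤ B * I := by
    calc ‖∫ x in a..b, (1 + D - N * lam v x * F x) * qq v x‖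
        ≤ ∫ x in a..b, ‖(1 + D - N * lam v x * F x) * qq v x‖ :=
          intervalIntegral.norm_integral_le_integral_norm hab.le
      _ ≤ ∫ x in a..b, B * ‖qq v x‖ := by
          apply intervalIntegral.integral_mono_on hab.le
          · apply ContinuousOn.intervalIntegrable
            rw [Set.uIcc_of_le hab.le]
            exact hGc.norm
          · exact (continuous_const.mul (qq_cont v).norm).intervalIntegrable _ _
          · intro x hx
            rw [norm_mul]
            exact mul_le_mul_of_nonneg_right (hB0 x hx) (norm_nonneg _)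
      _ = B * ∫ x in a..b, ‖qq v x‖ := intervalIntegral.integral_const_mul _ _
      _ ≤ B * I := mul_le_mul_of_nonneg_left hI hB00
  unfold Inv at h ⊢
  have e5 : (∫ x in (0 : ℝ)..b, qq v x) - (H₀ - K * qq v b) =
      ((∫ x in (0 : ℝ)..a, qq v x) - (H₀ - H * qq v a)) +
        ∫ x in a..b, (1 + D - N * lam v x * F x) * qq v x := by
    rw [h2]
    linear_combination -h1
  rw [e5]
  exact (norm_add_le _ _).trans (add_le_add h h3)

/-! ### The integral of `|q|` over a cell -/

/-- `log |1 - l v| + M l²/2` is convex -/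
theorem convex_log {a b R M : ℝ} {v : ℂ} (h0 : 0 ≤ a) (hv : ‖v‖ ≤ R) (hb : b * R < 1)
    (hM : (R / (1 - b * R)) ^ 2 ≤ M) :
    ConvexOn ℝ (Set.Icc a b) fun l : ℝ => Real.log ‖1 - (l : ℂ) * v‖ + M * l ^ 2 / 2 := by
  have hR : 0 ≤ R := (norm_nonneg v).trans hv
  have hpos : ∀ l ∈ Set.Icc a b, 1 - b * R ≤ ‖1 - (l : ℂ) * v‖ := by
    intro l hl
    have h1 : ‖(l : ℂ) * v‖ ≤ b * R := by
      rw [norm_mul, Complex.norm_real, Real.norm_of_nonneg (h0.trans hl.1)]
      exact mul_le_mul hl.2 hv (norm_nonneg _) (h0.trans (hl.1.trans hl.2))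
    have h2 := norm_sub_norm_le (1 : ℂ) ((l : ℂ) * v)
    rw [norm_one] at h2
    linarith
  have hp : 0 < 1 - b * R := by linarith
  have hne : ∀ l ∈ Set.Icc a b, 1 - (l : ℂ) * v ≠ 0 := by
    intro l hl h
    have := hpos l hl
    rw [h, norm_zero] at this
    linarith
  have hre : ∀ l ∈ Set.Icc a b, 0 < (1 - (l : ℂ) * v).re := by
    intro l hl
    have h1 : ((l : ℂ) * v).re ≤ b * R := by
      refine (Complex.re_le_norm _).trans ?_
      rw [norm_mul, Complex.norm_real, Real.norm_of_nonneg (h0.trans hl.1)]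
      exact mul_le_mul hl.2 hv (norm_nonneg _) (h0.trans (hl.1.trans hl.2))
    rw [Complex.sub_re, Complex.one_re]
    linarith
  have hlin : ∀ l : ℝ, HasDerivAt (fun l : ℝ => 1 - (l : ℂ) * v) (-v) l := by
    intro l
    simpa using ((Complex.ofRealCLM.hasDerivAt (x := l)).mul_const v).const_sub 1
  apply convexOn_of_hasDerivWithinAt2_nonneg (convex_Icc a b)
    (f' := fun l : ℝ => (-v / (1 - (l : ℂ) * v)).re + M * l)
    (f'' := fun l : ℝ => (-(v ^ 2) / (1 - (l : ℂ) * v) ^ 2).re + M)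
  · apply ContinuousOn.add
    · apply ContinuousOn.log
      · fun_prop
      · intro l hl
        exact norm_ne_zero_iff.2 (hne l hl)
    · fun_prop
  · intro l hl
    have hl' := interior_subset hl
    have e1 : HasDerivAt (fun l : ℝ => Complex.log (1 - (l : ℂ) * v)) (-v / (1 - (l : ℂ) * v)) l :=
      (hlin l).clog_real (Or.inl (hre l hl'))
    have e2 : HasDerivAt (fun l : ℝ => (Complex.log (1 - (l : ℂ) * v)).re)
        (-v / (1 - (l : ℂ) * v)).re l := by
      have := Complex.reCLM.hasFDerivAt.comp_hasDerivAt l e1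
      exact this
    have e3 : (fun l : ℝ => Real.log ‖1 - (l : ℂ) * v‖) =
        fun l : ℝ => (Complex.log (1 - (l : ℂ) * v)).re := by
      funext l
      rw [Complex.log_re]
    have e4 : HasDerivAt (fun l : ℝ => M * l ^ 2 / 2) (M * l) l := by
      have := ((hasDerivAt_pow 2 l).const_mul M).div_const 2
      refine this.congr_deriv ?_
      push_cast
      ring
    have e5 := e2.add e4
    rw [← e3] at e5
    exact e5.hasDerivWithinAt
  · intro l hl
    have hl' := interior_subset hl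
    have e1 : HasDerivAt (fun l : ℝ => -v / (1 - (l : ℂ) * v)) (-(v ^ 2) / (1 - (l : ℂ) * v) ^ 2)
        l := by
      have := (hasDerivAt_const l (-v)).div (hlin l) (hne l hl')
      refine this.congr_deriv ?_
      congr 1
      ring
    have e2 : HasDerivAt (fun l : ℝ => (-v / (1 - (l : ℂ) * v)).re)
        (-(v ^ 2) / (1 - (l : ℂ) * v) ^ 2).re l := by
      have := Complex.reCLM.hasFDerivAt.comp_hasDerivAt l e1
      exact this
    have e4 : HasDerivAt (fun l : ℝ => M * l) M l := by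
      simpa using (hasDerivAt_id l).const_mul M
    exact (e2.add e4).hasDerivWithinAt
  · intro l hl
    have hl' := interior_subset hl
    have h1 : -‖-(v ^ 2) / (1 - (l : ℂ) * v) ^ 2‖ ≤ (-(v ^ 2) / (1 - (l : ℂ) * v) ^ 2).re :=
      neg_le_of_abs_le (Complex.abs_re_le_norm _)
    have h2 : ‖-(v ^ 2) / (1 - (l : ℂ) * v) ^ 2‖ ≤ (R / (1 - b * R)) ^ 2 := by
      rw [norm_div, norm_neg, norm_pow, norm_pow, ← div_pow]
      apply pow_le_pow_left₀ (by positivity)
      exact div_le_div₀ hR hv hp (hpos l hl')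
    linarith

/-- trapezoid bound on a cell -/
theorem cell_trap {a b R M C E₁ E₂ : ℝ} (h0 : 0 ≤ a) (hab : a < b) (hv : ∀ k, ‖v k‖ ≤ R)
    (hb : b * R < 1) (hM : (R / (1 - b * R)) ^ 2 ≤ M)
    (hC : Real.exp (N * M * (b - a) ^ 2 / 8) ≤ C)
    (hE₁ : ‖qq v a‖ ≤ E₁) (hE₂ : ‖qq v b‖ ≤ E₂) :
    ∫ x in a..b, ‖qq v x‖ ≤ (b - a) * C * ((E₁ + E₂) / 2) := by
  have hba : 0 < b - a := by linarith
  have hne : ∀ l ∈ Set.Icc a b, ∀ k, 1 - (l : ℂ) * v k ≠ 0 := by
    intro l hl k h
    have h1 : ‖(l : ℂ) * v k‖ ≤ b * R := by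
      rw [norm_mul, Complex.norm_real, Real.norm_of_nonneg (h0.trans hl.1)]
      exact mul_le_mul hl.2 (hv k) (norm_nonneg _) (h0.trans (hl.1.trans hl.2))
    have h2 : (l : ℂ) * v k = 1 := by linear_combination -h
    rw [h2, norm_one] at h1
    linarith
  have hC0 : 0 < C := (Real.exp_pos _).trans_le hC
  -- pointwise bound
  have key : ∀ x ∈ Set.Icc a b, ‖qq v x‖ ≤
      C * ((b - x) / (b - a) * E₁ + (x - a) / (b - a) * E₂) := by
    intro x hx
    set θ := (x - a) / (b - a) with hθ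
    have ht0 : 0 ≤ θ := div_nonneg (by linarith [hx.1]) hba.le
    have ht1 : θ ≤ 1 := (div_le_one hba).2 (by linarith [hx.2])
    have e0 : (b - x) / (b - a) = 1 - θ := by
      rw [hθ]; field_simp; ring
    have hxe : x = (1 - θ) * a + θ * b := by
      rw [hθ]; field_simp; ring
    have hlog : ∀ l ∈ Set.Icc a b, Real.log ‖qq v l‖ = ∑ k, Real.log ‖1 - (l : ℂ) * v k‖ := by
      intro l hl
      unfold qq
      rw [norm_prod, Real.log_prod]
      intro k _
      exact norm_ne_zero_iff.2 (hne l hl k)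
    have hqpos : ∀ l ∈ Set.Icc a b, 0 < ‖qq v l‖ := by
      intro l hl
      unfold qq
      rw [norm_prod]
      exact Finset.prod_pos fun k _ => norm_pos_iff.2 (hne l hl k)
    have ha : a ∈ Set.Icc a b := ⟨le_rfl, hab.le⟩
    have hbb : b ∈ Set.Icc a b := ⟨hab.le, le_rfl⟩
    have hconv : ∀ k, Real.log ‖1 - (x : ℂ) * v k‖ ≤ (1 - θ) * Real.log ‖1 - (a : ℂ) * v k‖ +
        θ * Real.log ‖1 - (b : ℂ) * v k‖ + M * (b - a) ^ 2 / 8 := by
      intro k
      have h1 := (convex_log h0 (hv k) hb hM).2 ha hbb (by linarith : 0 ≤ 1 - θ) ht0 (by ring)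
      simp only [smul_eq_mul] at h1
      rw [← hxe] at h1
      have h2 : (1 - θ) * (M * a ^ 2 / 2) + θ * (M * b ^ 2 / 2) - M * x ^ 2 / 2 =
          M * (θ * (1 - θ)) * (b - a) ^ 2 / 2 := by
        rw [hxe]; ring
      have h3 : θ * (1 - θ) ≤ 1 / 4 := by nlinarith [sq_nonneg (θ - 1 / 2)]
      have hM0 : 0 ≤ M := (sq_nonneg _).trans hM
      have h4 : M * (θ * (1 - θ)) * (b - a) ^ 2 / 2 ≤ M * (b - a) ^ 2 / 8 := by
        have h5 : 0 ≤ M * (b - a) ^ 2 := by positivity
        nlinarith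
      linarith
    have hsum : Real.log ‖qq v x‖ ≤ (1 - θ) * Real.log ‖qq v a‖ + θ * Real.log ‖qq v b‖ +
        N * M * (b - a) ^ 2 / 8 := by
      rw [hlog x hx, hlog a ha, hlog b hbb, Finset.mul_sum, Finset.mul_sum,
        ← Finset.sum_add_distrib]
      have h6 : (N : ℝ) * M * (b - a) ^ 2 / 8 = ∑ _k : Fin N, M * (b - a) ^ 2 / 8 := by
        simp
        ring
      rw [h6, ← Finset.sum_add_distrib]
      exact Finset.sum_le_sum fun k _ => hconv k
    have hq : ‖qq v x‖ ≤ ‖qq v a‖ ^ (1 - θ) * ‖qq v b‖ ^ θ *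
        Real.exp (N * M * (b - a) ^ 2 / 8) := by
      rw [← Real.exp_log (hqpos x hx), Real.rpow_def_of_pos (hqpos a ha),
        Real.rpow_def_of_pos (hqpos b hbb), ← Real.exp_add, ← Real.exp_add]
      apply Real.exp_le_exp.2
      rw [mul_comm (Real.log ‖qq v a‖), mul_comm (Real.log ‖qq v b‖)]
      exact hsum
    have hamgm : ‖qq v a‖ ^ (1 - θ) * ‖qq v b‖ ^ θ ≤ (1 - θ) * ‖qq v a‖ + θ * ‖qq v b‖ :=
      Real.geom_mean_le_arith_mean2_weighted (by linarith) ht0 (norm_nonneg _) (norm_nonneg _)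
        (by ring)
    rw [e0]
    have h7 : 0 ≤ (1 - θ) * ‖qq v a‖ + θ * ‖qq v b‖ := by
      have : 0 ≤ 1 - θ := by linarith
      positivity
    calc ‖qq v x‖ ≤ ((1 - θ) * ‖qq v a‖ + θ * ‖qq v b‖) *
        Real.exp (N * M * (b - a) ^ 2 / 8) :=
          hq.trans (mul_le_mul_of_nonneg_right hamgm (Real.exp_pos _).le)
      _ ≤ ((1 - θ) * ‖qq v a‖ + θ * ‖qq v b‖) * C := mul_le_mul_of_nonneg_left hC h7
      _ ≤ ((1 - θ) * E₁ + θ * E₂) * C := by
          apply mul_le_mul_of_nonneg_right _ hC0.le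
          have : 0 ≤ 1 - θ := by linarith
          gcongr
      _ = _ := by ring
  calc ∫ x in a..b, ‖qq v x‖ ≤ ∫ x in a..b,
        C * ((b - x) / (b - a) * E₁ + (x - a) / (b - a) * E₂) := by
        apply intervalIntegral.integral_mono_on hab.le
        · exact (qq_cont v).norm.intervalIntegrable _ _
        · apply Continuous.intervalIntegrable
          fun_prop
        · exact key
    _ = _ := by
        have e1 : ∀ x : ℝ, C * ((b - x) / (b - a) * E₁ + (x - a) / (b - a) * E₂) =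
            C * (b * E₁ - a * E₂) / (b - a) + C * (E₂ - E₁) / (b - a) * x := by
          intro x
          field_simp
          ring
        simp only [e1]
        rw [intervalIntegral.integral_add (by simp) (by
          apply Continuous.intervalIntegrable
          fun_prop), intervalIntegral.integral_const, intervalIntegral.integral_const_mul,
          integral_id]
        simp only [smul_eq_mul]
        field_simp
        ring

/-- constant bound on a cell -/
theorem cell_const {a b E : ℝ} (hab : a ≤ b) (hE : ∀ x ∈ Set.Icc a b, ‖qq v x‖ ≤ E) :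
    ∫ x in a..b, ‖qq v x‖ ≤ (b - a) * E := by
  calc ∫ x in a..b, ‖qq v x‖ ≤ ∫ _x in a..b, E := by
        apply intervalIntegral.integral_mono_on hab
        · exact (qq_cont v).norm.intervalIntegrable _ _
        · simp
        · exact hE
    _ = (b - a) * E := by simp

/-- lower bounds of `|∫_0^l q|` pass through a cell -/
theorem tail_step {a b g I : ℝ} (hab : a ≤ b) (h : g ≤ ‖∫ x in (0 : ℝ)..a, qq v x‖)
    (hI : ∫ x in a..b, ‖qq v x‖ ≤ I) : g - I ≤ ‖∫ x in (0 : ℝ)..b, qq v x‖ := by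
  have := tail (u := v) hab
  linarith

end

end Pool.Agent.Lib.MP_af3a4a_an.P1.CHK.H80
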