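import Pool.Agent.Lib.MP_af3a4a_an.P1.CHK.H80.PL

/-!
# The disc lemma in the variable `l = x/R` and over box x cell, council 2, helper80
-/

namespace Pool.Agent.Lib.MP_af3a4a_an.P1.CHK.H80

open Finset MeasureTheory ComplexConjugate
open Pool.Agent.Lib.MP_af3a4a_an.SV (uu av sq EE)
open Pool.Agent.Lib.MP_af3a4a_an.P1.H80

section

variable {N : ℕ}

/-- the scaled points -/
noncomputable def vv (R : ℝ) (u : Fin N → ℂ) : Fin N → ℂ := fun k => (R : ℂ) * u k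

theorem vv_norm {R : ℝ} (hR : 0 ≤ R) {u : Fin N → ℂ} (hu : ∀ k, ‖u k‖ ≤ 1) (k : Fin N) :
    ‖vv R u k‖ ≤ R := by
  unfold vv
  rw [norm_mul, Complex.norm_real, Real.norm_of_nonneg hR]
  exact mul_le_of_le_one_right hR (hu k)

theorem av_vv (R : ℝ) (u : Fin N → ℂ) : av (vv R u) = R * av u := av_mul _ _

theorem qq_vv (R l : ℝ) (u : Fin N → ℂ) : qq (vv R u) l = qq u (l * R) := by
  unfold qq vv
  refine Finset.prod_congr rfl fun k _ => ?_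
  push_cast
  ring

theorem lam_vv (R l : ℝ) (u : Fin N → ℂ) : lam (vv R u) l = R * lam u (l * R) := by
  unfold lam vv
  rw [← av_mul]
  congr 1
  funext k
  push_cast
  rw [mul_div_assoc]
  congr 2
  ring

/-- the integral in the variable `l` -/
theorem int_vv {R : ℝ} (u : Fin N → ℂ) (L : ℝ) :
    (R : ℂ) * ∫ l in (0 : ℝ)..L, qq (vv R u) l = ∫ x in (0 : ℝ)..(L * R), qq u x := by
  have h := intervalIntegral.smul_integral_comp_mul_right (a := 0) (b := L) (fun x => qq u x) R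
  rw [zero_mul] at h
  rw [← h, Complex.real_smul]
  congr 1
  congr 1
  funext l
  exact qq_vv R l u

/-- the radius of the disc of `Λ(l)` -/
noncomputable def rad (R : ℝ) (μ : ℂ) (l : ℝ) : ℝ :=
  l * (R ^ 2 - ‖μ‖ ^ 2) * (1 + l * ‖((l * R ^ 2 : ℝ) : ℂ) - μ‖ / ‖1 - (l : ℂ) * μ‖) /
    ((1 - l ^ 2 * R ^ 2) * (1 - 2 * l * μ.re + l ^ 2 * R ^ 2))

/-- **the disc lemma in the variable `l`** -/
theorem schur_l (hN : 1 ≤ N) {u : Fin N → ℂ} (hu : ∀ k, ‖u k‖ ≤ 1) {R l : ℝ} (hR : 0 < R)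
    (h0 : 0 ≤ l) (h1 : l * R < 1) :
    ‖lam (vv R u) l - av (vv R u) / (1 - (l : ℂ) * av (vv R u))‖ ≤ rad R (av (vv R u)) l := by
  have hx0 : 0 ≤ l * R := by positivity
  have hs := schur_disc hN hu hx0 h1
  have hm := av_norm_le hN hu
  have hA := nrm_pos hm hx0 h1
  have hdn := dn_pos hm hx0 h1
  have hdm := dn_mul (av u) (l * R)
  set m := av u with hmdef
  have hμ : av (vv R u) = R * m := av_vv R u
  rw [hμ, lam_vv]
  have e1 : (R : ℂ) * m / (1 - (l : ℂ) * (R * m)) = R * (m / (1 - ((l * R : ℝ) : ℂ) * m)) := by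
    push_cast
    rw [mul_div_assoc]
    congr 2
    ring
  rw [e1, ← mul_sub, norm_mul, Complex.norm_real, Real.norm_of_nonneg hR.le]
  have hs' : ‖lam u (l * R) - m / (1 - ((l * R : ℝ) : ℂ) * m)‖ ≤
      l * R * (1 - ‖m‖ ^ 2) / (‖1 - ((l * R : ℝ) : ℂ) * m‖ * dn m (l * R)) := hs
  refine (mul_le_mul_of_nonneg_left hs' hR.le).trans (le_of_eq ?_)
  unfold rad
  have e2 : (1 : ℂ) - (l : ℂ) * (R * m) = 1 - ((l * R : ℝ) : ℂ) * m := by push_cast; ring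
  have e3 : ‖((l * R ^ 2 : ℝ) : ℂ) - R * m‖ = R * ‖((l * R : ℝ) : ℂ) - m‖ := by
    have h9 : ((l * R ^ 2 : ℝ) : ℂ) - R * m = (R : ℂ) * (((l * R : ℝ) : ℂ) - m) := by
      push_cast
      ring
    rw [h9, norm_mul, Complex.norm_real, Real.norm_of_nonneg hR.le]
  have e4 : ‖(R : ℂ) * m‖ = R * ‖m‖ := by
    rw [norm_mul, Complex.norm_real, Real.norm_of_nonneg hR.le]
  have e5 : ((R : ℂ) * m).re = R * m.re := Complex.re_ofReal_mul _ _
  rw [e2, e3, e4, e5]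
  set A := ‖1 - ((l * R : ℝ) : ℂ) * m‖ with hAdef
  set B := ‖((l * R : ℝ) : ℂ) - m‖ with hBdef
  have e6 : (1 - (l * R) ^ 2) * (1 - 2 * (l * R) * m.re + (l * R) ^ 2) =
      (1 - l ^ 2 * R ^ 2) * (1 - 2 * l * (R * m.re) + l ^ 2 * R ^ 2) := by ring
  rw [← e6, ← hdm]
  have hB0 : 0 ≤ B := norm_nonneg _
  have hAB : 0 < A + l * R * B := by positivity
  field_simp

/-- the pivot over box and cell -/
theorem pivot_diff {μ μ₀ : ℂ} {l l₀ : ℝ} (h1 : 1 - (l : ℂ) * μ ≠ 0) (h2 : 1 - (l₀ : ℂ) * μ₀ ≠ 0) :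
    μ / (1 - (l : ℂ) * μ) - μ₀ / (1 - (l₀ : ℂ) * μ₀) =
      ((μ - μ₀) + ((l - l₀ : ℝ) : ℂ) * (μ * μ₀)) /
        ((1 - (l : ℂ) * μ) * (1 - (l₀ : ℂ) * μ₀)) := by
  rw [div_sub_div _ _ h1 h2]
  congr 1
  push_cast
  ring

end

end Pool.Agent.Lib.MP_af3a4a_an.P1.CHK.H80
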